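import Pool.Agent.Helper54.IP.GSwap

/-!
TH-P: at most two degenerate columns in row 1 unless `x = x' = 1` (helper76's remark).
`x = 1 - lam' 0`, `x' = mu' 0`.
-/

namespace Pool.Agent.Helper14.IP

open Pool.Agent.Helper54.IP

variable {F : Type*} [Field F] {m : ℕ}

/-- at a degenerate column: `G(1,k+1) = t G(1,k)` and `t H(1,k+1) = H(1,k)` -/
theorem deg_step (g : GForm F m) {k : ℕ} (hk : k < m) (h : g.kap 1 k = 0) :
    g.G 1 (k + 1) = g.t 1 * g.G 1 k ∧ g.t 1 * g.H 1 (k + 1) = g.H 1 k := by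
  have ht := g.t_ne 1 (by omega)
  have e1 := g.G_succ (j := 1) (by omega) hk
  have e2 := g.H_succ (j := 1) (by omega) hk
  have e3 : g.t 1 * g.G 1 k - g.t 1 ^ k * g.H 1 k = 0 := h
  rw [h, mul_zero, sub_zero] at e1 e2
  refine ⟨e1, ?_⟩
  apply mul_left_cancel₀ (pow_ne_zero k ht)
  rw [pow_succ] at e2
  linear_combination e2 + e3

/-- at a degenerate column `(1-x') x s_k s_(k+1) = (1-x) x'` -/
theorem deg_prod (g : GForm F m) {k : ℕ} (hk : k < m) (h : g.kap 1 k = 0) :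
    (1 - g.mu' 0) * (1 - g.lam' 0) * (g.s k * g.s (k + 1)) = g.lam' 0 * g.mu' 0 := by
  obtain ⟨e1, e2⟩ := deg_step g hk h
  have r1 := g.row1G (by omega) hk.le
  have r2 := g.row1G (by omega : 1 ≤ m) hk
  have r3 := g.row1H (by omega) hk.le
  have r4 := g.row1H (by omega : 1 ≤ m) hk
  have hs : g.s (k + 1) - g.s k ≠ 0 := sub_ne_zero.mpr (g.s_inj k (k + 1) (by omega) hk).symm
  have key : (g.s (k + 1) - g.s k) * ((1 - g.mu' 0) * (1 - g.lam' 0) * (g.s k * g.s (k + 1))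
      - g.lam' 0 * g.mu' 0) = 0 := by
    have E1 : g.lam' 0 + (1 - g.lam' 0) * g.s (k + 1)
        = g.t 1 * (g.lam' 0 + (1 - g.lam' 0) * g.s k) := by rw [← r1, ← r2]; exact e1
    have E2 : g.t 1 * g.s k * ((1 - g.mu' 0) * g.s (k + 1) + g.mu' 0)
        = g.s (k + 1) * ((1 - g.mu' 0) * g.s k + g.mu' 0) := by
      rw [← r3, ← r4]; linear_combination g.s k * g.s (k + 1) * e2
    linear_combination (((1 - g.mu' 0) * g.s (k + 1) + g.mu' 0) * g.s k) * E1
      + (g.lam' 0 + (1 - g.lam' 0) * g.s k) * E2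
  rcases mul_eq_zero.mp key with h1 | h1
  · exact absurd h1 hs
  · exact sub_eq_zero.mp h1

/-- the quadratic equation of a degenerate column -/
theorem deg_quad (g : GForm F m) {k : ℕ} (hk : k < m) (h : g.kap 1 k = 0) :
    g.t 1 * (1 - g.mu' 0) * (1 - g.lam' 0) * g.s k ^ 2
      + (g.t 1 - 1) * g.lam' 0 * (1 - g.mu' 0) * g.s k - g.lam' 0 * g.mu' 0 = 0 := by
  obtain ⟨e1, -⟩ := deg_step g hk h
  have e2 := deg_prod g hk h
  have r1 := g.row1G (by omega) hk.le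
  have r2 := g.row1G (by omega : 1 ≤ m) hk
  rw [r1, r2] at e1
  linear_combination e2 - (1 - g.mu' 0) * g.s k * e1

/-- three degenerate columns: `x = x' = 1` -/
theorem three_deg (g : GForm F m) {i j k : ℕ} (hij : i < j) (hjk : j < k) (hk : k < m)
    (h1 : g.kap 1 i = 0) (h2 : g.kap 1 j = 0) (h3 : g.kap 1 k = 0) :
    g.lam' 0 = 0 ∧ g.mu' 0 = 1 := by
  have q1 := deg_quad g (by omega) h1
  have q2 := deg_quad g (by omega) h2
  have q3 := deg_quad g hk h3
  have d12 : g.s i - g.s j ≠ 0 := sub_ne_zero.mpr (g.s_inj i j hij (by omega))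
  have d13 : g.s i - g.s k ≠ 0 := sub_ne_zero.mpr (g.s_inj i k (by omega) (by omega))
  have d23 : g.s j - g.s k ≠ 0 := sub_ne_zero.mpr (g.s_inj j k hjk (by omega))
  have a1 : g.t 1 * (1 - g.mu' 0) * (1 - g.lam' 0) * (g.s i + g.s j)
      + (g.t 1 - 1) * g.lam' 0 * (1 - g.mu' 0) = 0 := by
    apply (mul_eq_zero.mp _).resolve_left d12
    linear_combination q1 - q2
  have a2 : g.t 1 * (1 - g.mu' 0) * (1 - g.lam' 0) * (g.s i + g.s k)
      + (g.t 1 - 1) * g.lam' 0 * (1 - g.mu' 0) = 0 := by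
    apply (mul_eq_zero.mp _).resolve_left d13
    linear_combination q1 - q3
  have a3 : g.t 1 * (1 - g.mu' 0) * (1 - g.lam' 0) = 0 := by
    apply (mul_eq_zero.mp _).resolve_left d23
    linear_combination a1 - a2
  have ht := g.t_ne 1 (by omega)
  have hl : 1 - g.lam' 0 ≠ 0 := sub_ne_zero.mpr (g.lam'_ne 0 (by omega)).symm
  have hmu : 1 - g.mu' 0 = 0 := by
    rcases mul_eq_zero.mp a3 with h | h
    · exact (mul_eq_zero.mp h).resolve_left ht
    · exact absurd h hl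
  have hmu1 : g.mu' 0 = 1 := (sub_eq_zero.mp hmu).symm
  refine ⟨?_, hmu1⟩
  rw [hmu, hmu1] at q1
  linear_combination -q1

open Classical in
/-- at most two degenerate columns unless `x = x' = 1` -/
theorem deg_card (g : GForm F m) (hx : ¬ (g.lam' 0 = 0 ∧ g.mu' 0 = 1)) :
    ((Finset.range m).filter (fun k => g.kap 1 k = 0)).card ≤ 2 := by
  by_contra hcon
  rw [not_le, Finset.two_lt_card_iff] at hcon
  obtain ⟨i, j, k, hi, hj, hk, hij, hik, hjk⟩ := hcon
  simp only [Finset.mem_filter, Finset.mem_range] at hi hj hk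
  rcases lt_or_gt_of_ne hij with h1 | h1 <;> rcases lt_or_gt_of_ne hik with h2 | h2 <;>
    rcases lt_or_gt_of_ne hjk with h3 | h3
  · exact hx (three_deg g h1 h3 hk.1 hi.2 hj.2 hk.2)
  · exact hx (three_deg g h2 h3 hj.1 hi.2 hk.2 hj.2)
  · omega
  · exact hx (three_deg g h2 h1 hj.1 hk.2 hi.2 hj.2)
  · exact hx (three_deg g h1 h2 hk.1 hj.2 hi.2 hk.2)
  · omega
  · exact hx (three_deg g h3 h2 hi.1 hj.2 hk.2 hi.2)
  · exact hx (three_deg g h3 h1 hi.1 hk.2 hj.2 hi.2)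

/-- two neighbouring columns are not both degenerate -/
theorem deg_next (g : GForm F m) {k : ℕ} (hk : k < m) (h : g.kap 1 k = 0) : g.kap 1 (k + 1) ≠ 0 := by
  obtain ⟨e1, e2⟩ := deg_step g hk h
  have ht := g.t_ne 1 (by omega)
  have h10 : g.t 1 ≠ 1 := by
    have := g.t_inj 0 1 (by omega) (by omega)
    rw [g.t0] at this
    exact this.symm
  intro h2
  have h3 : g.t 1 * g.G 1 (k + 1) - g.t 1 ^ (k + 1) * g.H 1 (k + 1) = 0 := h2
  have h4 : g.t 1 * g.G 1 k - g.t 1 ^ k * g.H 1 k = 0 := h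
  have h5 : (g.t 1 * (g.t 1 - 1)) * g.G 1 k = 0 := by
    rw [pow_succ] at h3
    linear_combination h3 - g.t 1 * e1 + g.t 1 ^ k * e2 - h4
  have h6 : g.G 1 k = 0 :=
    (mul_eq_zero.mp h5).resolve_left (mul_ne_zero ht (sub_ne_zero.mpr h10))
  have h7 : g.H 1 k = 0 := by
    rw [h6, mul_zero, zero_sub, neg_eq_zero] at h4
    exact (mul_eq_zero.mp h4).resolve_left (pow_ne_zero _ ht)
  exact g.ne_zero (by omega) hk.le ⟨h6, h7⟩

end Pool.Agent.Helper14.IP
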