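import Pool.Agent.Helper54.IP.ToG
import Pool.Agent.Helper54.IP.Rev

/-!
TH-P: from the elimination theorem for corners (`t_i = s_i = q^i` for `i < m`) to all eigenvalues,
the last index included (reversal and transposition).
-/

namespace Pool.Agent.Helper14.IP

open Pool.Agent.Helper54.IP

variable {F : Type*} [Field F] {m : ℕ}

/-- the eigenvalues with index `< m` -/
theorem geo_lt (hm : 2 ≤ m)
    (elim : ∀ g : GForm F m, ∀ i, i < m → g.t i = g.t 1 ^ i ∧ g.s i = g.t 1 ^ i)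
    (M : Mat F (m + 1)) (i : ℕ) (hi : i < m) :
    M.a ⟨i, by omega⟩ = M.a 0 * (M.a ⟨1, by omega⟩ / M.a 0) ^ i ∧
      M.b ⟨i, by omega⟩ = M.b 0 * (M.a ⟨1, by omega⟩ / M.a 0) ^ i := by
  obtain ⟨g, ht, hs, -⟩ := M.toGForm
  obtain ⟨h1, h2⟩ := elim g i hi
  rw [ht i (by omega), ht 1 (by omega)] at h1
  rw [hs i (by omega), ht 1 (by omega)] at h2
  constructor
  · rw [← h1, mul_div_cancel₀ _ (M.a_ne 0)]
  · rw [← h2, mul_div_cancel₀ _ (M.b_ne 0)]

/-- the last `b` -/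
theorem geo_last_b (hm : 2 ≤ m)
    (elim : ∀ g : GForm F m, ∀ i, i < m → g.t i = g.t 1 ^ i ∧ g.s i = g.t 1 ^ i)
    (M : Mat F (m + 1)) :
    M.b ⟨m, by omega⟩ = M.b ⟨m - 1, by omega⟩ * (M.a ⟨1, by omega⟩ / M.a 0) := by
  obtain ⟨M', ha, hb, -⟩ := exists_rev M
  obtain ⟨h1, h2⟩ := geo_lt hm elim M' 1 (by omega)
  rw [hb, hb, ha, ha] at h2
  have e1 : Fin.rev (⟨1, by omega⟩ : Fin (m + 1)) = ⟨m - 1, by omega⟩ := by
    ext; simp [Fin.rev]
  have e0 : Fin.rev (0 : Fin (m + 1)) = ⟨m, by omega⟩ := by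
    ext; simp [Fin.rev]
  rw [e1, e0, pow_one] at h2
  have n1 := M.a_ne ⟨1, by omega⟩
  have n0 := M.a_ne 0
  rw [h2]
  field_simp

/-- the statement of `Mat.geometric` from the elimination theorem -/
theorem geometric_of_elim (hm : 2 ≤ m)
    (elim : ∀ g : GForm F m, ∀ i, i < m → g.t i = g.t 1 ^ i ∧ g.s i = g.t 1 ^ i)
    (M : Mat F (m + 1)) :
    ∃ q : F, (∀ i : Fin (m + 1), M.a i = M.a 0 * q ^ (i : ℕ)) ∧
      (∀ i : Fin (m + 1), M.b i = M.b 0 * q ^ (i : ℕ)) := by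
  refine ⟨M.a ⟨1, by omega⟩ / M.a 0, ?_, ?_⟩
  · intro i
    obtain ⟨i, hi⟩ := i
    rcases Nat.lt_or_ge i m with h | h
    · exact (geo_lt hm elim M i h).1
    · obtain rfl : i = m := by omega
      have h1 := geo_last_b hm elim M.swap
      have h2 := (geo_lt hm elim M (i - 1) (by omega)).1
      have h3 := (geo_lt hm elim M 1 (by omega)).2
      have h4 : M.b ⟨1, by omega⟩ / M.b 0 = M.a ⟨1, by omega⟩ / M.a 0 := by
        rw [h3, pow_one, mul_div_cancel_left₀ _ (M.b_ne 0)]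
      change M.a ⟨i, by omega⟩ = M.a ⟨i - 1, by omega⟩ * (M.b ⟨1, by omega⟩ / M.b 0) at h1
      rw [h4, h2, mul_assoc, ← pow_succ, Nat.sub_add_cancel (by omega)] at h1
      exact h1
  · intro i
    obtain ⟨i, hi⟩ := i
    rcases Nat.lt_or_ge i m with h | h
    · exact (geo_lt hm elim M i h).2
    · obtain rfl : i = m := by omega
      have h1 := geo_last_b hm elim M
      have h2 := (geo_lt hm elim M (i - 1) (by omega)).2
      rw [h2, mul_assoc, ← pow_succ, Nat.sub_add_cancel (by omega)] at h1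
      exact h1

end Pool.Agent.Helper14.IP
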