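import Pool.Agent.Helper54.IP.ToMat
import Pool.Agent.Helper54.IP.Normal
import Pool.Agent.Helper54.IP.Converse
import Pool.Agent.Helper14.IP.Geo

/-!
TH-P: the classification of the irreducible inverting pairs of dimension `n ≥ 7`, from the elimination
theorem for corners (hypothesis `elim`).  Also: every set of parameters occurs, and the parameters
determine the pair up to conjugation.
-/

namespace Pool.Agent.Helper14.IP

open Pool.Agent.Helper54.IP

variable {F : Type*} [Field F]

/-- The parameters of the main family in dimension `n`. -/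
def Good (n : ℕ) (a b q s : F) : Prop :=
  a ≠ 0 ∧ b ≠ 0 ∧ q ≠ 0 ∧ s ≠ 0 ∧ ∀ i, 1 ≤ i → i < n → q ^ i ≠ 1 ∧ 1 + s * q ^ i ≠ 0

/-- the classification, from the elimination theorem in corners of size `n - 1` -/
theorem classify_of_elim {V : Type*} [AddCommGroup V] [Module F V] {m : ℕ} (hm : 2 ≤ m)
    (elim : ∀ g : GForm F m, ∀ i, i < m → g.t i = g.t 1 ^ i ∧ g.s i = g.t 1 ^ i)
    (K Ks : V ≃ₗ[F] V) :
    (IsInvertingPair (m + 1) K Ks ∧ Irred K Ks) ↔
      ∃ a b q s : F, Good (m + 1) a b q s ∧ IsMain (m + 1) K Ks a b q s := by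
  constructor
  · rintro ⟨h, irr⟩
    obtain ⟨M, v, w, hw, hv, hX⟩ := exists_mat K Ks h irr
    obtain ⟨q, ha, hb⟩ := geometric_of_elim hm elim M
    obtain ⟨s, hs, hs1, hmain⟩ := normal_form (by omega) K Ks M v w hw hv hX (M.a 0) (M.b 0) q ha hb
    refine ⟨M.a 0, M.b 0, q, s, ⟨M.a_ne 0, M.b_ne 0, ?_, hs, ?_⟩, hmain⟩
    · rintro rfl
      have := ha ⟨1, by omega⟩
      rw [pow_one, mul_zero] at this
      exact M.a_ne _ this
    · intro i h1 h2
      refine ⟨fun h3 => ?_, hs1 i h1 h2⟩
      have := ha ⟨i, h2⟩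
      rw [show ((⟨i, h2⟩ : Fin (m + 1)) : ℕ) = i from rfl, h3, mul_one] at this
      have := M.a_inj this
      rw [Fin.ext_iff] at this
      simp at this
      omega
  · rintro ⟨a, b, q, s, ⟨ha, hb, hq, hs, h1⟩, hmain⟩
    exact main_isInvertingPair (by omega) K Ks a b q s ha hb hq (fun i h2 h3 => (h1 i h2 h3).1) hs
      (fun i h2 h3 => (h1 i h2 h3).2) hmain

/-- every set of parameters occurs, in every space of dimension `n` -/
theorem exists_main {V : Type*} [AddCommGroup V] [Module F V] {n : ℕ} (x : Module.Basis (Fin n) F V)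
    (a b q s : F) (ha : a ≠ 0) (hb : b ≠ 0) (hq : q ≠ 0) :
    ∃ K Ks : V ≃ₗ[F] V, IsMain n K Ks a b q s := by
  classical
  haveI : FiniteDimensional F V := Module.Basis.finiteDimensional_of_finite x
  set A : V →ₗ[F] V := x.constr F (fun i : Fin n => (a * q ^ (i : ℕ)) • x i
      + if h : (i : ℕ) + 1 < n then x ⟨i + 1, h⟩ else 0) with hA
  set B : V →ₗ[F] V := x.constr F (fun i : Fin n => (b * q ^ (i : ℕ)) • x i
      + if h : 0 < (i : ℕ) then phi n a b q s i • x ⟨i - 1, by omega⟩ else 0) with hB
  have eA : ∀ i, A (x i) = (a * q ^ (i : ℕ)) • x i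
      + if h : (i : ℕ) + 1 < n then x ⟨i + 1, h⟩ else 0 := fun i => by rw [hA, x.constr_basis]
  have eB : ∀ i, B (x i) = (b * q ^ (i : ℕ)) • x i
      + if h : 0 < (i : ℕ) then phi n a b q s i • x ⟨i - 1, by omega⟩ else 0 := fun i => by
    rw [hB, x.constr_basis]
  have mA : IsUnit (LinearMap.det A) := by
    rw [← LinearMap.det_toMatrix x, Matrix.det_of_lowerTriangular]
    · rw [isUnit_iff_ne_zero, Finset.prod_ne_zero_iff]
      intro i _
      rw [LinearMap.toMatrix_apply, eA, map_add, map_smul, Module.Basis.repr_self]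
      have : (x.repr (if h : (i : ℕ) + 1 < n then x ⟨i + 1, h⟩ else 0)) i = 0 := by
        split_ifs with h
        · rw [Module.Basis.repr_self, Finsupp.single_apply, if_neg]
          intro h1; rw [Fin.ext_iff] at h1; simp at h1
        · simp
      rw [Finsupp.add_apply, this]
      simp [ha, hq]
    · intro i j hij
      have hij : (i : ℕ) < j := hij
      rw [LinearMap.toMatrix_apply, eA, map_add, map_smul, Module.Basis.repr_self,
        Finsupp.add_apply, Finsupp.smul_apply, Finsupp.single_apply, if_neg]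
      · have : (x.repr (if h : (j : ℕ) + 1 < n then x ⟨j + 1, h⟩ else 0)) i = 0 := by
          split_ifs with h
          · rw [Module.Basis.repr_self, Finsupp.single_apply, if_neg]
            intro h1; rw [Fin.ext_iff] at h1; simp at h1; omega
          · simp
        rw [this]; simp
      · intro h1; rw [Fin.ext_iff] at h1; omega
  have mB : IsUnit (LinearMap.det B) := by
    rw [← LinearMap.det_toMatrix x, Matrix.det_of_upperTriangular]
    · rw [isUnit_iff_ne_zero, Finset.prod_ne_zero_iff]
      intro i _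
      rw [LinearMap.toMatrix_apply, eB, map_add, map_smul, Module.Basis.repr_self]
      have : (x.repr (if h : 0 < (i : ℕ) then phi n a b q s i • x ⟨i - 1, by omega⟩ else 0)) i
          = 0 := by
        split_ifs with h
        · rw [map_smul, Module.Basis.repr_self, Finsupp.smul_apply, Finsupp.single_apply, if_neg]
          · simp
          · intro h1; rw [Fin.ext_iff] at h1; simp at h1; omega
        · simp
      rw [Finsupp.add_apply, this]
      simp [hb, hq]
    · intro i j hij
      have hij : (j : ℕ) < i := hij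
      rw [LinearMap.toMatrix_apply, eB, map_add, map_smul, Module.Basis.repr_self,
        Finsupp.add_apply, Finsupp.smul_apply, Finsupp.single_apply, if_neg]
      · have : (x.repr (if h : 0 < (j : ℕ) then phi n a b q s j • x ⟨j - 1, by omega⟩ else 0)) i
            = 0 := by
          split_ifs with h
          · rw [map_smul, Module.Basis.repr_self, Finsupp.smul_apply, Finsupp.single_apply, if_neg]
            · simp
            · intro h1; rw [Fin.ext_iff] at h1; simp at h1; omega
          · simp
        rw [this]; simp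
      · intro h1; rw [Fin.ext_iff] at h1; omega
  refine ⟨(LinearEquiv.ofIsUnitDet (v := x) (v' := x) (f := A) (by rwa [LinearMap.det_toMatrix])).symm,
    LinearEquiv.ofIsUnitDet (v := x) (v' := x) (f := B) (by rwa [LinearMap.det_toMatrix]), x, ?_, ?_⟩
  · intro i
    exact eA i
  · intro i
    exact eB i

/-- the parameters determine the pair up to conjugation -/
theorem main_conj {V V' : Type*} [AddCommGroup V] [Module F V] [AddCommGroup V'] [Module F V'] {n : ℕ}
    {K Ks : V ≃ₗ[F] V} {K' Ks' : V' ≃ₗ[F] V'} {a b q s : F} (h : IsMain n K Ks a b q s)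
    (h' : IsMain n K' Ks' a b q s) :
    ∃ g : V ≃ₗ[F] V', (∀ v, g (K v) = K' (g v)) ∧ ∀ v, g (Ks v) = Ks' (g v) := by
  obtain ⟨x, h1, h2⟩ := h
  obtain ⟨x', h1', h2'⟩ := h'
  set g : V ≃ₗ[F] V' := x.equiv x' (Equiv.refl _) with hg
  have gx : ∀ i, g (x i) = x' i := fun i => by rw [hg]; simp
  have e1 : ∀ v, g (K.symm v) = K'.symm (g v) := by
    intro v
    have : (g : V →ₗ[F] V') ∘ₗ (K.symm : V →ₗ[F] V) = (K'.symm : V' →ₗ[F] V') ∘ₗ (g : V →ₗ[F] V') := by
      refine x.ext fun i => ?_
      simp only [LinearMap.comp_apply, LinearEquiv.coe_coe]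
      rw [h1, gx, h1', map_add, map_smul, gx]
      congr 1
      split_ifs
      · rw [gx]
      · rw [map_zero]
    exact LinearMap.congr_fun this v
  have e2 : ∀ v, g (Ks v) = Ks' (g v) := by
    intro v
    have : (g : V →ₗ[F] V') ∘ₗ (Ks : V →ₗ[F] V) = (Ks' : V' →ₗ[F] V') ∘ₗ (g : V →ₗ[F] V') := by
      refine x.ext fun i => ?_
      simp only [LinearMap.comp_apply, LinearEquiv.coe_coe]
      rw [h2, gx, h2', map_add, map_smul, gx]
      congr 1
      split_ifs
      · rw [map_smul, gx]
      · rw [map_zero]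
    exact LinearMap.congr_fun this v
  refine ⟨g, fun v => ?_, e2⟩
  have := e1 (K v)
  rw [LinearEquiv.symm_apply_apply] at this
  rw [this, LinearEquiv.apply_symm_apply]

end Pool.Agent.Helper14.IP
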