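import Pool.Agent.Helper14.IP.Rotate

/-!
TH-P: the final statement (classification of the irreducible inverting pairs of dimension `n = m + 1`),
from the elimination theorem for corners.
-/

namespace Pool.Agent.Helper14.IP

open Pool.Agent.Helper54.IP

universe u v w

/-- Classification, existence, conjugacy criterion. -/
theorem full_of_elim {F : Type u} [Field F] {m : ℕ} (hm : 2 ≤ m)
    (elim : ∀ g : GForm F m, ∀ i, i < m → g.t i = g.t 1 ^ i ∧ g.s i = g.t 1 ^ i) :
    (∀ (V : Type v) [AddCommGroup V] [Module F V] (K Ks : V ≃ₗ[F] V),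
      (IsInvertingPair (m + 1) K Ks ∧ Irred K Ks) ↔
        ∃ a b q s : F, Good (m + 1) a b q s ∧ IsMain (m + 1) K Ks a b q s) ∧
    (∀ (V : Type v) [AddCommGroup V] [Module F V], Module.finrank F V = m + 1 →
      ∀ a b q s : F, Good (m + 1) a b q s → ∃ K Ks : V ≃ₗ[F] V, IsMain (m + 1) K Ks a b q s) ∧
    (∀ (V : Type v) [AddCommGroup V] [Module F V] (V' : Type w) [AddCommGroup V'] [Module F V']
      (K Ks : V ≃ₗ[F] V) (K' Ks' : V' ≃ₗ[F] V') (a b q s a' b' q' s' : F),
      Good (m + 1) a b q s → Good (m + 1) a' b' q' s' →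
      IsMain (m + 1) K Ks a b q s → IsMain (m + 1) K' Ks' a' b' q' s' →
      ((∃ f : V ≃ₗ[F] V', (∀ v, f (K v) = K' (f v)) ∧ ∀ v, f (Ks v) = Ks' (f v)) ↔
        q' = q ∧ s' = s ∧ ((a' = a ∧ b' = b) ∨
          (q ^ (m + 1) = 1 ∧ s = -1 ∧ a' ^ (m + 1) = a ^ (m + 1) ∧ b' ^ (m + 1) = b ^ (m + 1))))) := by
  refine ⟨fun V _ _ K Ks => classify_of_elim hm elim K Ks, ?_, ?_⟩
  · intro V _ _ hV a b q s g
    haveI : FiniteDimensional F V := Module.finite_of_finrank_pos (by omega)
    exact exists_main (Module.finBasisOfFinrankEq F V hV) a b q s g.1 g.2.1 g.2.2.1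
  · intro V _ _ V' _ _ K Ks K' Ks' a b q s a' b' q' s' g g' h h'
    exact main_conj_iff (by omega) g g' h h'

end Pool.Agent.Helper14.IP
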