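import Pool.Agent.Helper14.IP.Full

/-!
TH-P: the final statement (classification of the irreducible inverting pairs of dimension `n = m + 1`),
from the weak elimination theorem for corners (`t_i = s_i = q^i` only for `i + 1 < m`).
-/

namespace Pool.Agent.Helper14.IP

open Pool.Agent.Helper54.IP

universe u v w

variable {F : Type u} [Field F] {m : ℕ}

/-- the eigenvalues with index `< m - 1` -/
theorem geo_lt_w (hm : 4 ≤ m)
    (elim : ∀ g : GForm F m, ∀ i, i + 1 < m → g.t i = g.t 1 ^ i ∧ g.s i = g.t 1 ^ i)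
    (M : Mat F (m + 1)) (i : ℕ) (hi : i + 1 < m) :
    M.a ⟨i, by omega⟩ = M.a 0 * (M.a ⟨1, by omega⟩ / M.a 0) ^ i ∧
      M.b ⟨i, by omega⟩ = M.b 0 * (M.a ⟨1, by omega⟩ / M.a 0) ^ i := by
  obtain ⟨g, ht, hs, -⟩ := M.toGForm
  obtain ⟨h1, h2⟩ := elim g i hi
  rw [ht i (by omega), ht 1 (by omega)] at h1
  rw [hs i (by omega), ht 1 (by omega)] at h2
  constructor
  · rw [← h1, mul_div_cancel₀ _ (M.a_ne 0)]
  · rw [← h2, mul_div_cancel₀ _ (M.b_ne 0)]

/-- all `b` -/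
theorem geo_b_w (hm : 4 ≤ m)
    (elim : ∀ g : GForm F m, ∀ i, i + 1 < m → g.t i = g.t 1 ^ i ∧ g.s i = g.t 1 ^ i)
    (M : Mat F (m + 1)) (i : ℕ) (hi : i ≤ m) :
    M.b ⟨i, by omega⟩ = M.b 0 * (M.a ⟨1, by omega⟩ / M.a 0) ^ i := by
  rcases Nat.lt_or_ge (i + 1) m with h | h
  · exact (geo_lt_w hm elim M i h).2
  obtain ⟨M', ha, hb, -⟩ := exists_rev M
  have n1 := M.a_ne ⟨1, by omega⟩
  have n0 := M.a_ne 0
  set q := M.a ⟨1, by omega⟩ / M.a 0 with hq
  have q0 : q ≠ 0 := div_ne_zero n1 n0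
  have key : ∀ k, k + 1 < m → M.b ⟨m - k, by omega⟩ = M.b ⟨m, by omega⟩ * (q⁻¹) ^ k := by
    intro k hk
    have h2 := (geo_lt_w hm elim M' k hk).2
    rw [hb, hb, ha, ha] at h2
    have e1 : Fin.rev (⟨k, by omega⟩ : Fin (m + 1)) = ⟨m - k, by omega⟩ := by
      ext; simp [Fin.rev]
    have e0 : Fin.rev (0 : Fin (m + 1)) = ⟨m, by omega⟩ := by
      ext; simp [Fin.rev]
    rw [e1, e0] at h2
    rw [h2, hq, inv_div, div_inv_eq_mul, mul_comm (M.a ⟨1, by omega⟩)⁻¹, ← div_eq_mul_inv]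
  have k2 := key (m - 2) (by omega)
  have f2 := (geo_lt_w hm elim M 2 (by omega)).2
  have e2 : (⟨m - (m - 2), by omega⟩ : Fin (m + 1)) = ⟨2, by omega⟩ := by
    ext; simp; omega
  rw [e2, f2, ← hq] at k2
  have hbm : M.b ⟨m, by omega⟩ = M.b 0 * q ^ m := by
    have : M.b ⟨m, by omega⟩ * (q⁻¹) ^ (m - 2) * q ^ (m - 2) = M.b 0 * q ^ 2 * q ^ (m - 2) := by
      rw [← k2]
    rw [mul_assoc, ← mul_pow, inv_mul_cancel₀ q0, one_pow, mul_one, mul_assoc, ← pow_add,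
      show 2 + (m - 2) = m by omega] at this
    exact this
  have hk := key (m - i) (by omega)
  have ei : (⟨m - (m - i), by omega⟩ : Fin (m + 1)) = ⟨i, by omega⟩ := by
    ext; simp; omega
  rw [ei, hbm] at hk
  rw [hk, mul_assoc]
  congr 1
  have hs : q ^ m = q ^ i * q ^ (m - i) := by rw [← pow_add]; congr 1; omega
  rw [hs, mul_assoc, ← mul_pow, mul_inv_cancel₀ q0, one_pow, mul_one]

/-- the statement of `Mat.geometric` from the weak elimination theorem -/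
theorem geometric_of_elim_w (hm : 4 ≤ m)
    (elim : ∀ g : GForm F m, ∀ i, i + 1 < m → g.t i = g.t 1 ^ i ∧ g.s i = g.t 1 ^ i)
    (M : Mat F (m + 1)) :
    ∃ q : F, (∀ i : Fin (m + 1), M.a i = M.a 0 * q ^ (i : ℕ)) ∧
      (∀ i : Fin (m + 1), M.b i = M.b 0 * q ^ (i : ℕ)) := by
  refine ⟨M.a ⟨1, by omega⟩ / M.a 0, ?_, ?_⟩
  · intro i
    obtain ⟨i, hi⟩ := i
    have h1 := geo_b_w hm elim M.swap i (by omega)
    have h3 := (geo_lt_w hm elim M 1 (by omega)).2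
    have h4 : M.b ⟨1, by omega⟩ / M.b 0 = M.a ⟨1, by omega⟩ / M.a 0 := by
      rw [h3, pow_one, mul_div_cancel_left₀ _ (M.b_ne 0)]
    change M.a ⟨i, by omega⟩ = M.a 0 * (M.b ⟨1, by omega⟩ / M.b 0) ^ i at h1
    rw [h4] at h1
    exact h1
  · intro i
    obtain ⟨i, hi⟩ := i
    exact geo_b_w hm elim M i (by omega)

/-- the classification, from the geometry of the eigenvalues -/
theorem classify_of_geo {V : Type*} [AddCommGroup V] [Module F V] (hm : 2 ≤ m)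
    (geo : ∀ M : Mat F (m + 1), ∃ q : F, (∀ i : Fin (m + 1), M.a i = M.a 0 * q ^ (i : ℕ)) ∧
      (∀ i : Fin (m + 1), M.b i = M.b 0 * q ^ (i : ℕ)))
    (K Ks : V ≃ₗ[F] V) :
    (IsInvertingPair (m + 1) K Ks ∧ Irred K Ks) ↔
      ∃ a b q s : F, Good (m + 1) a b q s ∧ IsMain (m + 1) K Ks a b q s := by
  constructor
  · rintro ⟨h, irr⟩
    obtain ⟨M, v, w, hw, hv, hX⟩ := exists_mat K Ks h irr
    obtain ⟨q, ha, hb⟩ := geo M
    obtain ⟨s, hs, hs1, hmain⟩ := normal_form (by omega) K Ks M v w hw hv hX (M.a 0) (M.b 0) q ha hb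
    refine ⟨M.a 0, M.b 0, q, s, ⟨M.a_ne 0, M.b_ne 0, ?_, hs, ?_⟩, hmain⟩
    · rintro rfl
      have := ha ⟨1, by omega⟩
      rw [pow_one, mul_zero] at this
      exact M.a_ne _ this
    · intro i h1 h2
      refine ⟨fun h3 => ?_, hs1 i h1 h2⟩
      have := ha ⟨i, h2⟩
      rw [show ((⟨i, h2⟩ : Fin (m + 1)) : ℕ) = i from rfl, h3, mul_one] at this
      have := M.a_inj this
      rw [Fin.ext_iff] at this
      simp at this
      omega
  · rintro ⟨a, b, q, s, ⟨ha, hb, hq, hs, h1⟩, hmain⟩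
    exact main_isInvertingPair (by omega) K Ks a b q s ha hb hq (fun i h2 h3 => (h1 i h2 h3).1) hs
      (fun i h2 h3 => (h1 i h2 h3).2) hmain

/-- Classification, existence, conjugacy criterion, from the geometry of the eigenvalues. -/
theorem full_of_geo (hm : 2 ≤ m)
    (geo : ∀ M : Mat F (m + 1), ∃ q : F, (∀ i : Fin (m + 1), M.a i = M.a 0 * q ^ (i : ℕ)) ∧
      (∀ i : Fin (m + 1), M.b i = M.b 0 * q ^ (i : ℕ))) :
    (∀ (V : Type v) [AddCommGroup V] [Module F V] (K Ks : V ≃ₗ[F] V),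
      (IsInvertingPair (m + 1) K Ks ∧ Irred K Ks) ↔
        ∃ a b q s : F, Good (m + 1) a b q s ∧ IsMain (m + 1) K Ks a b q s) ∧
    (∀ (V : Type v) [AddCommGroup V] [Module F V], Module.finrank F V = m + 1 →
      ∀ a b q s : F, Good (m + 1) a b q s → ∃ K Ks : V ≃ₗ[F] V, IsMain (m + 1) K Ks a b q s) ∧
    (∀ (V : Type v) [AddCommGroup V] [Module F V] (V' : Type w) [AddCommGroup V'] [Module F V']
      (K Ks : V ≃ₗ[F] V) (K' Ks' : V' ≃ₗ[F] V') (a b q s a' b' q' s' : F),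
      Good (m + 1) a b q s → Good (m + 1) a' b' q' s' →
      IsMain (m + 1) K Ks a b q s → IsMain (m + 1) K' Ks' a' b' q' s' →
      ((∃ f : V ≃ₗ[F] V', (∀ v, f (K v) = K' (f v)) ∧ ∀ v, f (Ks v) = Ks' (f v)) ↔
        q' = q ∧ s' = s ∧ ((a' = a ∧ b' = b) ∨
          (q ^ (m + 1) = 1 ∧ s = -1 ∧ a' ^ (m + 1) = a ^ (m + 1) ∧ b' ^ (m + 1) = b ^ (m + 1))))) := by
  refine ⟨fun V _ _ K Ks => classify_of_geo hm geo K Ks, ?_, ?_⟩
  · intro V _ _ hV a b q s g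
    haveI : FiniteDimensional F V := Module.finite_of_finrank_pos (by omega)
    exact exists_main (Module.finBasisOfFinrankEq F V hV) a b q s g.1 g.2.1 g.2.2.1
  · intro V _ _ V' _ _ K Ks K' Ks' a b q s a' b' q' s' g g' h h'
    exact main_conj_iff (by omega) g g' h h'

/-- Classification, existence, conjugacy criterion, from the weak elimination theorem. -/
theorem full_of_elim' (hm : 4 ≤ m)
    (elim : ∀ g : GForm F m, ∀ i, i + 1 < m → g.t i = g.t 1 ^ i ∧ g.s i = g.t 1 ^ i) :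
    (∀ (V : Type v) [AddCommGroup V] [Module F V] (K Ks : V ≃ₗ[F] V),
      (IsInvertingPair (m + 1) K Ks ∧ Irred K Ks) ↔
        ∃ a b q s : F, Good (m + 1) a b q s ∧ IsMain (m + 1) K Ks a b q s) ∧
    (∀ (V : Type v) [AddCommGroup V] [Module F V], Module.finrank F V = m + 1 →
      ∀ a b q s : F, Good (m + 1) a b q s → ∃ K Ks : V ≃ₗ[F] V, IsMain (m + 1) K Ks a b q s) ∧
    (∀ (V : Type v) [AddCommGroup V] [Module F V] (V' : Type w) [AddCommGroup V'] [Module F V']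
      (K Ks : V ≃ₗ[F] V) (K' Ks' : V' ≃ₗ[F] V') (a b q s a' b' q' s' : F),
      Good (m + 1) a b q s → Good (m + 1) a' b' q' s' →
      IsMain (m + 1) K Ks a b q s → IsMain (m + 1) K' Ks' a' b' q' s' →
      ((∃ f : V ≃ₗ[F] V', (∀ v, f (K v) = K' (f v)) ∧ ∀ v, f (Ks v) = Ks' (f v)) ↔
        q' = q ∧ s' = s ∧ ((a' = a ∧ b' = b) ∨
          (q ^ (m + 1) = 1 ∧ s = -1 ∧ a' ^ (m + 1) = a ^ (m + 1) ∧ b' ^ (m + 1) = b ^ (m + 1))))) :=
  full_of_geo (by omega) (fun M => geometric_of_elim_w hm elim M)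

end Pool.Agent.Helper14.IP
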