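import Pool.Agent.Helper54.IP.GSwap

/-!
TH-P: level 2 of the elimination (`level2` of `Helper54/IP/Tree.lean`).
-/

namespace Pool.Agent.Helper14.IP

open Pool.Agent.Helper54.IP

variable {F : Type*} [Field F]

/-- the two equations of the cell `(2,2)` are, up to the factors `x` and `x'`, linear in `x`, `x'` -/
private theorem lin {t T u S x x' y y' G H G12 H12 G21 H21 : F} (ht : t ≠ 0) (hT : T ≠ 0)
    (hu : u ≠ 0) (hS : S ≠ 0) (ht1 : t ≠ 1) (hu1 : u ≠ 1) (hx : x ≠ 0) (hx' : x' ≠ 0)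
    (hG : G = 1 - x + x * u) (hH : u * H = (1 - x') * u + x')
    (hG12 : G12 = 1 - x + x * S) (hH12 : S * H12 = (1 - x') * S + x')
    (hG' : G = 1 - y + y * t) (hH' : t * H = (1 - y') * t + y')
    (hG21 : G21 = 1 - y + y * T) (hH21 : T * H21 = (1 - y') * T + y')
    (hP : u * T * (t * G21 * (G - H) - (t * G - G12) * (G21 - H21)) =
      t * S * (u * G12 * (G - H) - (u * G - G21) * (G12 - H12)))
    (hQ : S * (G21 * (G - H) - (G - t * H12) * (G21 - H21)) =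
      T * (G12 * (G - H) - (G - u * H21) * (G12 - H12))) :
    (t - 1) * (t * S * (S - u - 1) - u * T * (T - t - 1)) + (T - 1) * (S - 1) * (u * T - t * S) * x +
      t * ((T - 1) * (T - t) * (u - 1) - (t - 1) * (S - 1) * (S - u)) * x' = 0 ∧
    (t - 1) * (T ^ 2 * (u - S - u * S) - S ^ 2 * (t - T - t * T)) +
      (S ^ 2 * (T - 1) * (u - 1) * (T - t) - T ^ 2 * (t - 1) * (S - 1) * (S - u)) * x -
      t * (T - 1) * (S - 1) * (t * S - u * T) * x' = 0 := by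
  have ht1' : t - 1 ≠ 0 := sub_ne_zero.2 ht1
  have hu1' : u - 1 ≠ 0 := sub_ne_zero.2 hu1
  have ey : y = x * (u - 1) / (t - 1) := by
    field_simp
    linear_combination hG - hG'
  have eH : H = 1 - x' * (u - 1) / u := by
    field_simp
    linear_combination hH
  have ey' : y' = x' * t * (u - 1) / (u * (t - 1)) := by
    rw [eH] at hH'
    field_simp at hH' ⊢
    linear_combination hH'
  have eH12 : H12 = 1 - x' * (S - 1) / S := by
    field_simp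
    linear_combination hH12
  have eG21 : G21 = 1 + x * (u - 1) / (t - 1) * (T - 1) := by
    rw [hG21, ey]
    ring
  have eH21 : H21 = 1 - x' * t * (u - 1) / (u * (t - 1)) * (T - 1) / T := by
    have h1 : T * H21 = T * (1 - y' * (T - 1) / T) := by
      rw [hH21]
      field_simp
      ring
    rw [← ey']
    exact mul_left_cancel₀ hT h1
  have eG : G = 1 + x * (u - 1) := by rw [hG]; ring
  have eG12 : G12 = 1 + x * (S - 1) := by rw [hG12]; ring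
  refine ⟨?_, ?_⟩
  · have h1 : x * (u - 1) * ((t - 1) * (t * S * (S - u - 1) - u * T * (T - t - 1)) +
        (T - 1) * (S - 1) * (u * T - t * S) * x +
        t * ((T - 1) * (T - t) * (u - 1) - (t - 1) * (S - 1) * (S - u)) * x') =
        (t - 1) * (u * T * (t * G21 * (G - H) - (t * G - G12) * (G21 - H21)) -
        t * S * (u * G12 * (G - H) - (u * G - G21) * (G12 - H12))) := by
      rw [eG, eH, eG12, eH12, eG21, eH21]
      field_simp
      ring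
    rw [hP, sub_self, mul_zero] at h1
    exact (mul_eq_zero.1 h1).resolve_left (mul_ne_zero hx hu1')
  · have h1 : x' * (u - 1) * ((t - 1) * (T ^ 2 * (u - S - u * S) - S ^ 2 * (t - T - t * T)) +
        (S ^ 2 * (T - 1) * (u - 1) * (T - t) - T ^ 2 * (t - 1) * (S - 1) * (S - u)) * x -
        t * (T - 1) * (S - 1) * (t * S - u * T) * x') =
        (t - 1) * u * T * S * (S * (G21 * (G - H) - (G - t * H12) * (G21 - H21)) -
        T * (G12 * (G - H) - (G - u * H21) * (G12 - H12))) := by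
      rw [eG, eH, eG12, eH12, eG21, eH21]
      field_simp
      ring
    rw [hQ, sub_self, mul_zero] at h1
    exact (mul_eq_zero.1 h1).resolve_left (mul_ne_zero hx' hu1')

variable {m : ℕ}

/-- the cell `(2,2)` -/
private theorem cell22 (g : GForm F m) (hm : 2 ≤ m) :
    (g.s 1 * g.t 2 * (g.t 1 * g.G 2 1 * (g.G 1 1 - g.H 1 1) -
        (g.t 1 * g.G 1 1 - g.G 1 2) * (g.G 2 1 - g.H 2 1)) =
      g.t 1 * g.s 2 * (g.s 1 * g.G 1 2 * (g.G 1 1 - g.H 1 1) -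
        (g.s 1 * g.G 1 1 - g.G 2 1) * (g.G 1 2 - g.H 1 2))) ∧
    (g.s 2 * (g.G 2 1 * (g.G 1 1 - g.H 1 1) -
        (g.G 1 1 - g.t 1 * g.H 1 2) * (g.G 2 1 - g.H 2 1)) =
      g.t 2 * (g.G 1 2 * (g.G 1 1 - g.H 1 1) -
        (g.G 1 1 - g.s 1 * g.H 2 1) * (g.G 1 2 - g.H 1 2))) := by
  have ht := g.t_ne 1 (by omega)
  have hT := g.t_ne 2 (by omega)
  have hu := g.s_ne 1 (by omega)
  have hS := g.s_ne 2 (by omega)
  have a1 := g.U1 1 1 (by omega) (by omega)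
  have a2 := g.U2 1 1 (by omega) (by omega)
  have a3 := g.U1 2 1 (by omega) (by omega)
  have a4 := g.U2 2 1 (by omega) (by omega)
  have b1 := g.V1 1 1 (by omega) (by omega)
  have b2 := g.V2 1 1 (by omega) (by omega)
  have b3 := g.V1 1 2 (by omega) (by omega)
  have b4 := g.V2 1 2 (by omega) (by omega)
  norm_num at a1 a2 a3 a4 b1 b2 b3 b4
  refine ⟨?_, ?_⟩
  · have h1 : g.t 1 * g.s 1 * (g.G 1 1 - g.H 1 1) * g.G 2 2 =
        g.s 1 * g.t 2 * (g.t 1 * g.G 2 1 * (g.G 1 1 - g.H 1 1) -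
        (g.t 1 * g.G 1 1 - g.G 1 2) * (g.G 2 1 - g.H 2 1)) := by
      rw [a3, a1]
      ring
    have h2 : g.t 1 * g.s 1 * (g.G 1 1 - g.H 1 1) * g.G 2 2 =
        g.t 1 * g.s 2 * (g.s 1 * g.G 1 2 * (g.G 1 1 - g.H 1 1) -
        (g.s 1 * g.G 1 1 - g.G 2 1) * (g.G 1 2 - g.H 1 2)) := by
      rw [b3, b1]
      ring
    rw [← h1, ← h2]
  · have e2 : g.t 1 * g.H 1 2 = (1 - g.mu 1) * g.G 1 1 + g.mu 1 * g.H 1 1 := by
      apply mul_left_cancel₀ ht
      linear_combination a2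
    have e4 : g.t 2 * g.H 2 2 = (1 - g.mu 1) * g.G 2 1 + g.mu 1 * g.H 2 1 := by
      apply mul_left_cancel₀ hT
      linear_combination a4
    have f2 : g.s 1 * g.H 2 1 = (1 - g.mu' 1) * g.G 1 1 + g.mu' 1 * g.H 1 1 := by
      apply mul_left_cancel₀ hu
      linear_combination b2
    have f4 : g.s 2 * g.H 2 2 = (1 - g.mu' 1) * g.G 1 2 + g.mu' 1 * g.H 1 2 := by
      apply mul_left_cancel₀ hS
      linear_combination b4
    have h1 : g.s 2 * (g.G 1 1 - g.H 1 1) * (g.t 2 * g.H 2 2) =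
        g.s 2 * (g.G 2 1 * (g.G 1 1 - g.H 1 1) -
        (g.G 1 1 - g.t 1 * g.H 1 2) * (g.G 2 1 - g.H 2 1)) := by
      rw [e4, e2]
      ring
    have h2 : g.t 2 * (g.G 1 1 - g.H 1 1) * (g.s 2 * g.H 2 2) =
        g.t 2 * (g.G 1 2 * (g.G 1 1 - g.H 1 1) -
        (g.G 1 1 - g.s 1 * g.H 2 1) * (g.G 1 2 - g.H 1 2)) := by
      rw [f4, f2]
      ring
    rw [← h1, ← h2]
    ring

/-- the two linear equations of the cell `(2,2)` -/
theorem lin22 (g : GForm F m) (hm : 2 ≤ m) :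
    (g.t 1 - 1) * (g.t 1 * g.s 2 * (g.s 2 - g.s 1 - 1) - g.s 1 * g.t 2 * (g.t 2 - g.t 1 - 1)) +
      (g.t 2 - 1) * (g.s 2 - 1) * (g.s 1 * g.t 2 - g.t 1 * g.s 2) * (1 - g.lam' 0) +
      g.t 1 * ((g.t 2 - 1) * (g.t 2 - g.t 1) * (g.s 1 - 1) -
        (g.t 1 - 1) * (g.s 2 - 1) * (g.s 2 - g.s 1)) * g.mu' 0 = 0 ∧
    (g.t 1 - 1) * (g.t 2 ^ 2 * (g.s 1 - g.s 2 - g.s 1 * g.s 2) -
        g.s 2 ^ 2 * (g.t 1 - g.t 2 - g.t 1 * g.t 2)) +
      (g.s 2 ^ 2 * (g.t 2 - 1) * (g.s 1 - 1) * (g.t 2 - g.t 1) -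
        g.t 2 ^ 2 * (g.t 1 - 1) * (g.s 2 - 1) * (g.s 2 - g.s 1)) * (1 - g.lam' 0) -
      g.t 1 * (g.t 2 - 1) * (g.s 2 - 1) * (g.t 1 * g.s 2 - g.s 1 * g.t 2) * g.mu' 0 = 0 := by
  obtain ⟨hP, hQ⟩ := cell22 g hm
  have ht1 : g.t 1 ≠ 1 := by
    have := g.t_inj 0 1 (by omega) (by omega)
    rw [g.t0] at this
    exact this.symm
  have hu1 : g.s 1 ≠ 1 := by
    have := g.s_inj 0 1 (by omega) (by omega)
    rw [g.s0] at this
    exact this.symm
  have r1 := g.row1G (k := 1) (by omega) (by omega)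
  have r2 := g.row1H (k := 1) (by omega) (by omega)
  have r3 := g.row1G (k := 2) (by omega) (by omega)
  have r4 := g.row1H (k := 2) (by omega) (by omega)
  have q1 := g.swap.row1G (k := 1) (by omega) (by omega)
  have q2 := g.swap.row1H (k := 1) (by omega) (by omega)
  have q3 := g.swap.row1G (k := 2) (by omega) (by omega)
  have q4 := g.swap.row1H (k := 2) (by omega) (by omega)
  simp only [GForm.swap_t, GForm.swap_s, GForm.swap_G, GForm.swap_H, GForm.swap_lam',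
    GForm.swap_mu'] at q1 q2 q3 q4
  exact lin (x := 1 - g.lam' 0) (x' := g.mu' 0) (y := 1 - g.lam 0) (y' := g.mu 0)
    (g.t_ne 1 (by omega)) (g.t_ne 2 (by omega)) (g.s_ne 1 (by omega)) (g.s_ne 2 (by omega)) ht1 hu1
    (sub_ne_zero.2 (g.lam'_ne 0 (by omega)).symm) (g.mu'_ne 0 (by omega))
    (by rw [r1]; ring) r2 (by rw [r3]; ring) r4 (by rw [q1]; ring) q2 (by rw [q3]; ring) q4 hP hQ

/-- level 2 -/
theorem level2 (g : GForm F m) (hm : 2 ≤ m) (_hD : g.G 1 1 ≠ g.H 1 1) :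
    (g.t 2 = g.s 2 ∧ g.t 1 = g.s 1) ∨
    (g.t 2 = g.s 2 ∧ g.t 1 ≠ g.s 1 ∧
      (g.t 2 - 1) * (g.t 2 * (1 - g.lam' 0) + g.t 1 * g.mu' 0) = (g.t 1 - 1) * g.t 2) ∨
    (g.t 2 ≠ g.s 2 ∧
      (g.s 2 * g.t 1 - g.t 2) * ((1 - g.lam' 0) - g.t 1 * g.mu' 0 + g.t 1 - 1) =
        (g.s 2 - 1) * (g.t 1 * g.t 2 * (1 - g.lam' 0) - g.t 1 * g.mu' 0) ∧
      (g.t 2 * g.s 1 - g.s 2) * ((1 - g.lam' 0) - g.t 1 * g.mu' 0 + g.t 1 - 1) =
        (g.t 2 - 1) * (g.s 1 * g.s 2 * (1 - g.lam' 0) - g.t 1 * g.mu' 0)) := by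
  obtain ⟨h1, h2⟩ := lin22 g hm
  have hT1 : g.t 2 - 1 ≠ 0 := by
    have := g.t_inj 0 2 (by omega) (by omega)
    rw [g.t0] at this
    exact sub_ne_zero.2 this.symm
  have hTt : g.t 2 - g.t 1 ≠ 0 := sub_ne_zero.2 (g.t_inj 1 2 (by omega) (by omega)).symm
  have hSu : g.s 2 - g.s 1 ≠ 0 := sub_ne_zero.2 (g.s_inj 1 2 (by omega) (by omega)).symm
  by_cases hTS : g.t 2 = g.s 2
  · by_cases htu : g.t 1 = g.s 1
    · exact Or.inl ⟨hTS, htu⟩
    · right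
      left
      refine ⟨hTS, htu, ?_⟩
      rw [← hTS] at h1
      have h3 : (g.t 2 - 1) * (g.t 1 - g.s 1) *
          ((g.t 2 - 1) * (g.t 2 * (1 - g.lam' 0) + g.t 1 * g.mu' 0) - (g.t 1 - 1) * g.t 2) = 0 := by
        linear_combination -h1
      have h4 := (mul_eq_zero.1 h3).resolve_left (mul_ne_zero hT1 (sub_ne_zero.2 htu))
      exact sub_eq_zero.1 h4
  · right
    right
    have hST : g.s 2 - g.t 2 ≠ 0 := sub_ne_zero.2 (Ne.symm hTS)
    refine ⟨hTS, ?_, ?_⟩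
    · have h3 : (g.s 2 - g.t 2) * (g.s 2 - g.s 1) *
          ((g.s 2 * g.t 1 - g.t 2) * ((1 - g.lam' 0) - g.t 1 * g.mu' 0 + g.t 1 - 1) -
          (g.s 2 - 1) * (g.t 1 * g.t 2 * (1 - g.lam' 0) - g.t 1 * g.mu' 0)) = 0 := by
        linear_combination g.s 2 * h1 - h2
      exact sub_eq_zero.1 ((mul_eq_zero.1 h3).resolve_left (mul_ne_zero hST hSu))
    · have h3 : (g.s 2 - g.t 2) * (g.t 2 - g.t 1) *
          ((g.t 2 * g.s 1 - g.s 2) * ((1 - g.lam' 0) - g.t 1 * g.mu' 0 + g.t 1 - 1) -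
          (g.t 2 - 1) * (g.s 1 * g.s 2 * (1 - g.lam' 0) - g.t 1 * g.mu' 0)) = 0 := by
        linear_combination g.t 2 * h1 - h2
      exact sub_eq_zero.1 ((mul_eq_zero.1 h3).resolve_left (mul_ne_zero hST hTt))

end Pool.Agent.Helper14.IP
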