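import Pool.Agent.Helper31.IPF.GInv
import Mathlib.LinearAlgebra.Lagrange

/-!
TH-P: the Newton form of the Szegő form.  The columns `G(., k)` are polynomials of degree `≤ k` in `t`
with leading coefficient `∏_{i<k} (1 - lam i)`; the double divided difference of `G` over
`t_0..t_k`, `s_0..s_k`, computed in two ways, gives

`∏_{i<k} (1 - lam i) * ∏_{i<k} (t k - t i) = ∏_{i<k} (1 - lam' i) * ∏_{i<k} (s k - s i)`

and so the diagonal cell equations `dg`, `dh` (helper82's DG_k, DH_k).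
-/

namespace Pool.Agent.Helper14.IP

open Pool.Agent.Helper54.IP Polynomial Finset

variable {F : Type*} [Field F] {m : ℕ}

/-- the columns are polynomials in `t` -/
theorem col_poly (g : GForm F m) : ∀ k, k ≤ m → ∃ p r : F[X],
    p.natDegree ≤ k ∧ r.natDegree ≤ k ∧ p.coeff k = ∏ i ∈ range k, (1 - g.lam i) ∧
    (∀ j, j ≤ m → p.eval (g.t j) = g.G j k) ∧
    (∀ j, j ≤ m → r.eval (g.t j) = g.t j ^ k * g.H j k) := by
  intro k
  induction k with
  | zero =>
    intro _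
    refine ⟨1, 1, by simp, by simp, by simp, fun j hj => ?_, fun j hj => ?_⟩
    · rw [eval_one, g.G0 j hj]
    · rw [eval_one, pow_zero, one_mul, g.H0 j hj]
  | succ k ih =>
    intro hk
    obtain ⟨p, r, hp, hr, hc, h1, h2⟩ := ih (by omega)
    have hr0 : r.coeff (k + 1) = 0 := coeff_eq_zero_of_natDegree_lt (by omega)
    have dX : (X * p).natDegree ≤ k + 1 := by
      refine natDegree_mul_le.trans ?_
      have : (X : F[X]).natDegree ≤ 1 := natDegree_X_le
      omega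
    refine ⟨C (1 - g.lam k) * (X * p) + C (g.lam k) * r,
      C (1 - g.mu k) * (X * p) + C (g.mu k) * r, ?_, ?_, ?_, fun j hj => ?_, fun j hj => ?_⟩
    · refine natDegree_add_le_of_degree_le ?_ ?_
      · exact (natDegree_C_mul_le _ _).trans dX
      · exact (natDegree_C_mul_le _ _).trans (by omega)
    · refine natDegree_add_le_of_degree_le ?_ ?_
      · exact (natDegree_C_mul_le _ _).trans dX
      · exact (natDegree_C_mul_le _ _).trans (by omega)
    · rw [coeff_add, coeff_C_mul, coeff_X_mul, coeff_C_mul, hr0, hc, prod_range_succ]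
      ring
    · rw [eval_add, eval_mul, eval_mul, eval_mul, eval_C, eval_C, eval_X, h1 j hj, h2 j hj,
        g.U1 j k hj (by omega)]
    · rw [eval_add, eval_mul, eval_mul, eval_mul, eval_C, eval_C, eval_X, h1 j hj, h2 j hj,
        g.U2 j k hj (by omega)]

/-- the divided differences of the columns -/
theorem col_dd (g : GForm F m) {k l : ℕ} (hk : k ≤ m) (hl : l ≤ k) :
    ∑ j ∈ range (k + 1), g.G j l / ∏ i ∈ (range (k + 1)).erase j, (g.t j - g.t i) =
      if l = k then ∏ i ∈ range k, (1 - g.lam i) else 0 := by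
  obtain ⟨p, r, hp, -, hc, h1, -⟩ := col_poly g l (by omega)
  have inj : Set.InjOn g.t ((range (k + 1) : Finset ℕ) : Set ℕ) := by
    intro a ha b hb hab
    have ha : a < k + 1 := by simpa using ha
    have hb : b < k + 1 := by simpa using hb
    rcases lt_trichotomy a b with h | h | h
    · exact absurd hab (g.t_inj a b h (by omega))
    · exact h
    · exact absurd hab.symm (g.t_inj b a h (by omega))
  have hdeg : p.degree < ((range (k + 1)).card : WithBot ℕ) := by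
    rw [card_range]
    refine lt_of_le_of_lt degree_le_natDegree ?_
    exact_mod_cast (by omega : p.natDegree < k + 1)
  have := Lagrange.coeff_eq_sum inj hdeg
  rw [card_range, Nat.add_sub_cancel] at this
  have e : ∑ j ∈ range (k + 1), g.G j l / ∏ i ∈ (range (k + 1)).erase j, (g.t j - g.t i) =
      p.coeff k := by
    rw [this]
    refine sum_congr rfl fun j hj => ?_
    rw [h1 j (by have := mem_range.1 hj; omega)]
  rw [e]
  split_ifs with h
  · subst h
    exact hc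
  · exact coeff_eq_zero_of_natDegree_lt (by omega)

/-- the double divided difference -/
theorem dd_diag (g : GForm F m) {k : ℕ} (hk : k ≤ m) :
    ∑ l ∈ range (k + 1), (∑ j ∈ range (k + 1),
        g.G j l / ∏ i ∈ (range (k + 1)).erase j, (g.t j - g.t i)) /
          ∏ i ∈ (range (k + 1)).erase l, (g.s l - g.s i) =
      (∏ i ∈ range k, (1 - g.lam i)) / ∏ i ∈ range k, (g.s k - g.s i) := by
  rw [sum_range_succ]
  rw [sum_eq_zero, zero_add]
  · rw [col_dd g hk le_rfl, if_pos rfl]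
    congr 2
    rw [range_add_one, erase_insert (by simp)]
  · intro l hl
    have hl : l < k := mem_range.1 hl
    rw [col_dd g hk hl.le, if_neg (by omega), zero_div]

theorem prod_t_ne (g : GForm F m) {k l : ℕ} (hkl : l ≤ k) (hk : k ≤ m) :
    ∏ i ∈ range l, (g.t k - g.t i) ≠ 0 := by
  rw [prod_ne_zero_iff]
  intro i hi
  exact sub_ne_zero.2 (g.t_inj i k (by have := mem_range.1 hi; omega) hk).symm

theorem prod_s_ne (g : GForm F m) {k l : ℕ} (hkl : l ≤ k) (hk : k ≤ m) :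
    ∏ i ∈ range l, (g.s k - g.s i) ≠ 0 := prod_t_ne g.swap hkl hk

theorem prod_lam_ne (g : GForm F m) {k : ℕ} (hk : k ≤ m) :
    ∏ i ∈ range k, (1 - g.lam i) ≠ 0 := by
  rw [prod_ne_zero_iff]
  intro i hi
  exact sub_ne_zero.2 (g.lam_ne i (by have := mem_range.1 hi; omega)).symm

/-- the leading principal minors, computed in two ways -/
theorem newton_diag (g : GForm F m) {k : ℕ} (hk : k ≤ m) :
    (∏ i ∈ range k, (1 - g.lam i)) * ∏ i ∈ range k, (g.t k - g.t i) =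
      (∏ i ∈ range k, (1 - g.lam' i)) * ∏ i ∈ range k, (g.s k - g.s i) := by
  have h1 := dd_diag g hk
  have h2 := dd_diag g.swap hk
  simp only [GForm.swap_t, GForm.swap_s, GForm.swap_G, GForm.swap_lam] at h2
  have h3 : ∑ l ∈ range (k + 1), (∑ j ∈ range (k + 1),
        g.G j l / ∏ i ∈ (range (k + 1)).erase j, (g.t j - g.t i)) /
          ∏ i ∈ (range (k + 1)).erase l, (g.s l - g.s i) =
      ∑ l ∈ range (k + 1), (∑ j ∈ range (k + 1),
        g.G l j / ∏ i ∈ (range (k + 1)).erase j, (g.s j - g.s i)) /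
          ∏ i ∈ (range (k + 1)).erase l, (g.t l - g.t i) := by
    simp only [sum_div]
    rw [sum_comm]
    refine sum_congr rfl fun j _ => sum_congr rfl fun l _ => ?_
    rw [div_div, div_div, mul_comm]
  rw [h1, h2] at h3
  rw [div_eq_div_iff (prod_s_ne g le_rfl hk) (prod_t_ne g le_rfl hk)] at h3
  exact h3

/-- **DG_k** -/
theorem dg (g : GForm F m) {k : ℕ} (hk : k < m) :
    (1 - g.lam k) * (∏ i ∈ range (k + 1), (g.t (k + 1) - g.t i)) *
        ∏ i ∈ range k, (g.s k - g.s i) =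
      (1 - g.lam' k) * (∏ i ∈ range (k + 1), (g.s (k + 1) - g.s i)) *
        ∏ i ∈ range k, (g.t k - g.t i) := by
  have h0 := newton_diag g (k := k) (by omega)
  have h1 := newton_diag g (k := k + 1) (by omega)
  rw [prod_range_succ (fun i => 1 - g.lam i), prod_range_succ (fun i => 1 - g.lam' i)] at h1
  have n1 := prod_lam_ne g (k := k) (by omega)
  have n2 := prod_lam_ne g.swap (k := k) (by omega)
  simp only [GForm.swap_lam] at n2
  refine mul_left_cancel₀ (mul_ne_zero n1 n2) ?_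
  linear_combination (∏ i ∈ range k, (1 - g.lam' i)) * (∏ i ∈ range k, (g.s k - g.s i)) * h1 -
    (1 - g.lam' k) * (∏ i ∈ range k, (1 - g.lam' i)) * (∏ i ∈ range (k + 1), (g.s (k + 1) - g.s i))
      * h0

theorem prod_inv_sub {t : ℕ → F} {x : F} (k : ℕ) (hx : x ≠ 0) (ht : ∀ i, i < k → t i ≠ 0) :
    (∏ i ∈ range k, (x⁻¹ - (t i)⁻¹)) * (x ^ k * ∏ i ∈ range k, t i) =
      (-1) ^ k * ∏ i ∈ range k, (x - t i) := by
  induction k with
  | zero => simp
  | succ k ih =>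
    have e := ih fun i hi => ht i (by omega)
    have hk := ht k (by omega)
    rw [prod_range_succ, prod_range_succ t, prod_range_succ (fun i => x - t i), pow_succ x,
      pow_succ (-1 : F)]
    have e2 : (x⁻¹ - (t k)⁻¹) * (x * t k) = -1 * (x - t k) := by
      field_simp
      ring
    linear_combination (x⁻¹ - (t k)⁻¹) * (x * t k) * e +
      (-1) ^ k * (∏ i ∈ range k, (x - t i)) * e2

/-- **DH_k** -/
theorem dh (g : GForm F m) {k : ℕ} (hk : k < m) :
    g.mu k * (∏ i ∈ range (k + 1), (g.t (k + 1) - g.t i)) *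
        (∏ i ∈ range k, (g.s k - g.s i)) * (g.s (k + 1) ^ (k + 1) * (g.s k * g.t k ^ k)) =
      g.mu' k * (∏ i ∈ range (k + 1), (g.s (k + 1) - g.s i)) *
        (∏ i ∈ range k, (g.t k - g.t i)) * (g.t (k + 1) ^ (k + 1) * (g.t k * g.s k ^ k)) := by
  have h := dg (Pool.Agent.Helper31.IPF.ginv g) hk
  change (1 - (1 - g.mu k)) * (∏ i ∈ range (k + 1), ((g.t (k + 1))⁻¹ - (g.t i)⁻¹)) *
        ∏ i ∈ range k, ((g.s k)⁻¹ - (g.s i)⁻¹) =
      (1 - (1 - g.mu' k)) * (∏ i ∈ range (k + 1), ((g.s (k + 1))⁻¹ - (g.s i)⁻¹)) *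
        ∏ i ∈ range k, ((g.t k)⁻¹ - (g.t i)⁻¹) at h
  rw [sub_sub_cancel, sub_sub_cancel] at h
  have t1 := prod_inv_sub (t := g.t) (k + 1) (g.t_ne (k + 1) (by omega))
    (fun i hi => g.t_ne i (by omega))
  have t2 := prod_inv_sub (t := g.t) k (g.t_ne k (by omega)) (fun i hi => g.t_ne i (by omega))
  have s1 := prod_inv_sub (t := g.s) (k + 1) (g.s_ne (k + 1) (by omega))
    (fun i hi => g.s_ne i (by omega))
  have s2 := prod_inv_sub (t := g.s) k (g.s_ne k (by omega)) (fun i hi => g.s_ne i (by omega))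
  rw [prod_range_succ g.t] at t1
  rw [prod_range_succ g.s] at s1
  have nt : ∏ i ∈ range k, g.t i ≠ 0 := prod_ne_zero_iff.2 fun i hi =>
    g.t_ne i (by have := mem_range.1 hi; omega)
  have ns : ∏ i ∈ range k, g.s i ≠ 0 := prod_ne_zero_iff.2 fun i hi =>
    g.s_ne i (by have := mem_range.1 hi; omega)
  have nsg : ((-1 : F) ^ k * (-1) ^ (k + 1)) ≠ 0 := by
    apply mul_ne_zero <;> exact pow_ne_zero _ (by simp)
  refine mul_left_cancel₀ (mul_ne_zero nsg (mul_ne_zero nt ns)) ?_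
  have eL : ((-1 : F) ^ k * (-1) ^ (k + 1)) * ((∏ i ∈ range k, g.t i) * ∏ i ∈ range k, g.s i) *
      (g.mu k * (∏ i ∈ range (k + 1), (g.t (k + 1) - g.t i)) *
        (∏ i ∈ range k, (g.s k - g.s i)) * (g.s (k + 1) ^ (k + 1) * (g.s k * g.t k ^ k))) =
      g.mu k * ((∏ i ∈ range (k + 1), ((g.t (k + 1))⁻¹ - (g.t i)⁻¹)) *
        (g.t (k + 1) ^ (k + 1) * ((∏ i ∈ range k, g.t i) * g.t k))) *
        ((∏ i ∈ range k, ((g.s k)⁻¹ - (g.s i)⁻¹)) * (g.s k ^ k * ∏ i ∈ range k, g.s i)) *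
        ((∏ i ∈ range k, g.t i) * ∏ i ∈ range k, g.s i) *
        (g.s (k + 1) ^ (k + 1) * (g.s k * g.t k ^ k)) := by
    rw [t1, s2]
    ring
  have eR : ((-1 : F) ^ k * (-1) ^ (k + 1)) * ((∏ i ∈ range k, g.t i) * ∏ i ∈ range k, g.s i) *
      (g.mu' k * (∏ i ∈ range (k + 1), (g.s (k + 1) - g.s i)) *
        (∏ i ∈ range k, (g.t k - g.t i)) * (g.t (k + 1) ^ (k + 1) * (g.t k * g.s k ^ k))) =
      g.mu' k * ((∏ i ∈ range (k + 1), ((g.s (k + 1))⁻¹ - (g.s i)⁻¹)) *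
        (g.s (k + 1) ^ (k + 1) * ((∏ i ∈ range k, g.s i) * g.s k))) *
        ((∏ i ∈ range k, ((g.t k)⁻¹ - (g.t i)⁻¹)) * (g.t k ^ k * ∏ i ∈ range k, g.t i)) *
        ((∏ i ∈ range k, g.t i) * ∏ i ∈ range k, g.s i) *
        (g.t (k + 1) ^ (k + 1) * (g.t k * g.s k ^ k)) := by
    rw [s1, t2]
    ring
  rw [eL, eR]
  linear_combination (g.t (k + 1) ^ (k + 1) * ((∏ i ∈ range k, g.t i) * g.t k)) *
    (g.s k ^ k * ∏ i ∈ range k, g.s i) * ((∏ i ∈ range k, g.t i) * ∏ i ∈ range k, g.s i) *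
    (g.s (k + 1) ^ (k + 1) * (g.s k * g.t k ^ k)) * h

/-! explicit small cases -/

theorem dg1 (g : GForm F m) (hm : 2 ≤ m) :
    (1 - g.lam 1) * ((g.t 2 - 1) * (g.t 2 - g.t 1)) * (g.s 1 - 1) =
      (1 - g.lam' 1) * ((g.s 2 - 1) * (g.s 2 - g.s 1)) * (g.t 1 - 1) := by
  have := dg g (k := 1) (by omega)
  simpa [prod_range_succ, g.t0, g.s0] using this

theorem dh1 (g : GForm F m) (hm : 2 ≤ m) :
    g.mu 1 * ((g.t 2 - 1) * (g.t 2 - g.t 1)) * (g.s 1 - 1) * g.s 2 ^ 2 =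
      g.mu' 1 * ((g.s 2 - 1) * (g.s 2 - g.s 1)) * (g.t 1 - 1) * g.t 2 ^ 2 := by
  have := dh g (k := 1) (by omega)
  simp only [prod_range_succ, prod_range_zero, g.t0, g.s0, one_mul, pow_one] at this
  refine mul_left_cancel₀ (mul_ne_zero (g.t_ne 1 (by omega)) (g.s_ne 1 (by omega))) ?_
  linear_combination this

theorem dg2 (g : GForm F m) (hm : 3 ≤ m) :
    (1 - g.lam 2) * ((g.t 3 - 1) * (g.t 3 - g.t 1) * (g.t 3 - g.t 2)) *
        ((g.s 2 - 1) * (g.s 2 - g.s 1)) =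
      (1 - g.lam' 2) * ((g.s 3 - 1) * (g.s 3 - g.s 1) * (g.s 3 - g.s 2)) *
        ((g.t 2 - 1) * (g.t 2 - g.t 1)) := by
  have := dg g (k := 2) (by omega)
  simpa [prod_range_succ, g.t0, g.s0] using this

theorem dh2 (g : GForm F m) (hm : 3 ≤ m) :
    g.mu 2 * ((g.t 3 - 1) * (g.t 3 - g.t 1) * (g.t 3 - g.t 2)) *
        ((g.s 2 - 1) * (g.s 2 - g.s 1)) * (g.s 3 ^ 3 * g.t 2) =
      g.mu' 2 * ((g.s 3 - 1) * (g.s 3 - g.s 1) * (g.s 3 - g.s 2)) *
        ((g.t 2 - 1) * (g.t 2 - g.t 1)) * (g.t 3 ^ 3 * g.s 2) := by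
  have := dh g (k := 2) (by omega)
  simp only [prod_range_succ, prod_range_zero, g.t0, g.s0, one_mul] at this
  refine mul_left_cancel₀ (mul_ne_zero (g.t_ne 2 (by omega)) (g.s_ne 2 (by omega))) ?_
  linear_combination this

theorem dg3 (g : GForm F m) (hm : 4 ≤ m) :
    (1 - g.lam 3) * ((g.t 4 - 1) * (g.t 4 - g.t 1) * (g.t 4 - g.t 2) * (g.t 4 - g.t 3)) *
        ((g.s 3 - 1) * (g.s 3 - g.s 1) * (g.s 3 - g.s 2)) =
      (1 - g.lam' 3) * ((g.s 4 - 1) * (g.s 4 - g.s 1) * (g.s 4 - g.s 2) * (g.s 4 - g.s 3)) *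
        ((g.t 3 - 1) * (g.t 3 - g.t 1) * (g.t 3 - g.t 2)) := by
  have := dg g (k := 3) (by omega)
  simpa [prod_range_succ, g.t0, g.s0] using this

theorem dh3 (g : GForm F m) (hm : 4 ≤ m) :
    g.mu 3 * ((g.t 4 - 1) * (g.t 4 - g.t 1) * (g.t 4 - g.t 2) * (g.t 4 - g.t 3)) *
        ((g.s 3 - 1) * (g.s 3 - g.s 1) * (g.s 3 - g.s 2)) * (g.s 4 ^ 4 * g.t 3 ^ 2) =
      g.mu' 3 * ((g.s 4 - 1) * (g.s 4 - g.s 1) * (g.s 4 - g.s 2) * (g.s 4 - g.s 3)) *
        ((g.t 3 - 1) * (g.t 3 - g.t 1) * (g.t 3 - g.t 2)) * (g.t 4 ^ 4 * g.s 3 ^ 2) := by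
  have := dh g (k := 3) (by omega)
  simp only [prod_range_succ, prod_range_zero, g.t0, g.s0, one_mul] at this
  refine mul_left_cancel₀ (mul_ne_zero (g.t_ne 3 (by omega)) (g.s_ne 3 (by omega))) ?_
  linear_combination this

end Pool.Agent.Helper14.IP
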