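import Pool.Agent.Helper54.IP.Converse

/-!
TH-P: uniqueness of the order of the eigenvectors (linear algebra lemmas).
-/

namespace Pool.Agent.Helper14.IP

open Pool.Agent.Helper54.IP

variable {F : Type*} [Field F]
variable {V : Type*} [AddCommGroup V] [Module F V] {n : ℕ}

/-- an eigenvector of an operator which is diagonal with distinct eigenvalues in the basis `v` -/
theorem eig_match (B : V ≃ₗ[F] V) (v : Module.Basis (Fin n) F V) (β : Fin n → F)
    (hβ : Function.Injective β) (hv : ∀ j, B (v j) = β j • v j) (z : V) (hz : z ≠ 0) (μ : F)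
    (h : B z = μ • z) : ∃ i, μ = β i ∧ ∃ c : F, c ≠ 0 ∧ z = c • v i := by
  classical
  have hc : ∀ i, v.repr (B z) i = β i * v.repr z i := by
    intro i
    have h1 : (v.coord i) ∘ₗ (B : V →ₗ[F] V) = β i • v.coord i := by
      refine v.ext fun j => ?_
      simp only [LinearMap.comp_apply, LinearEquiv.coe_coe, LinearMap.smul_apply,
        Module.Basis.coord_apply, hv j, map_smul, Module.Basis.repr_self, Finsupp.smul_apply,
        Finsupp.single_apply, smul_eq_mul]
      by_cases hij : j = i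
      · rw [if_pos hij, hij]
      · rw [if_neg hij, mul_zero, mul_zero]
    have h2 := LinearMap.congr_fun h1 z
    simpa using h2
  have hne : v.repr z ≠ 0 := by
    intro h0; exact hz (by simpa using h0)
  obtain ⟨i, hi⟩ := Finsupp.ne_iff.mp hne
  have hi : v.repr z i ≠ 0 := by simpa using hi
  have e1 : μ = β i := by
    have h2 := hc i
    rw [h, map_smul, Finsupp.smul_apply, smul_eq_mul] at h2
    exact mul_right_cancel₀ hi h2
  refine ⟨i, e1, v.repr z i, hi, ?_⟩
  have h3 : v.repr z = Finsupp.single i (v.repr z i) := by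
    ext j
    rw [Finsupp.single_apply]
    split_ifs with hij
    · rw [hij]
    · have h2 := hc j
      rw [h, map_smul, Finsupp.smul_apply, smul_eq_mul] at h2
      have h4 : (μ - β j) * v.repr z j = 0 := by rw [sub_mul, h2, sub_self]
      rcases mul_eq_zero.mp h4 with h5 | h5
      · exact absurd (hβ (e1 ▸ sub_eq_zero.mp h5 : β i = β j)) hij
      · exact h5
  apply v.repr.injective
  rw [map_smul, Module.Basis.repr_self, Finsupp.smul_single, smul_eq_mul, mul_one]
  exact h3

/-- the last column has a nonzero entry in row `0` -/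
theorem last0 (hn : 2 ≤ n) (K : V ≃ₗ[F] V) (v : Module.Basis (Fin n) F V)
    (c2 : ∀ i j : Fin n, (i : ℕ) + 1 < j → v.repr (K (v j)) i = 0)
    (d2 : ∀ i j : Fin n, (j : ℕ) = i + 1 → v.repr (K (v j)) i ≠ 0) :
    v.repr (K.symm (v ⟨n - 1, by omega⟩)) ⟨0, by omega⟩ ≠ 0 := by
  classical
  intro h0
  have key : ∀ k : ℕ, ∀ hk : k < n, v.repr (K.symm (v ⟨n - 1, by omega⟩)) ⟨k, hk⟩ = 0 := by
    intro k
    induction k using Nat.strong_induction_on with
    | _ k ih =>
      intro hk
      rcases Nat.eq_zero_or_pos k with rfl | hpos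
      · exact h0
      · have e : v ⟨n - 1, by omega⟩
            = ∑ i, v.repr (K.symm (v ⟨n - 1, by omega⟩)) i • K (v i) := by
          conv_lhs => rw [← K.apply_symm_apply (v ⟨n - 1, by omega⟩),
            ← v.sum_repr (K.symm (v ⟨n - 1, by omega⟩)), map_sum]
          simp only [map_smul]
        have e2 := congrArg (fun z => v.repr z ⟨k - 1, by omega⟩) e
        simp only [map_sum, map_smul, Finsupp.finsetSum_apply, Finsupp.smul_apply, smul_eq_mul,
          Module.Basis.repr_self] at e2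
        rw [Finset.sum_eq_single ⟨k, hk⟩, Finsupp.single_apply, if_neg] at e2
        · rcases mul_eq_zero.mp e2.symm with h | h
          · exact h
          · exact absurd h (d2 _ _ (by simp; omega))
        · intro h; rw [Fin.ext_iff] at h; simp at h; omega
        · intro i _ hi
          rcases lt_or_gt_of_ne hi with h | h
          · rw [ih i h i.2, zero_mul]
          · rw [c2 _ _ (by have : k < (i : ℕ) := h; simp; omega), mul_zero]
        · intro h; exact absurd (Finset.mem_univ _) h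
  have h1 : v.repr (K.symm (v ⟨n - 1, by omega⟩)) = 0 := by
    ext i; exact key i i.2
  have h2 : K.symm (v ⟨n - 1, by omega⟩) = 0 := by simpa using h1
  have h3 : v ⟨n - 1, by omega⟩ = 0 := by simpa using h2
  exact v.ne_zero _ h3

/-- first two elements of another order -/
theorem order1 (hn : 2 ≤ n) (K : V ≃ₗ[F] V) (v v' : Module.Basis (Fin n) F V) (σ : Fin n → Fin n)
    (c : Fin n → F) (hc : ∀ k, c k ≠ 0) (hv : ∀ k, v' k = c k • v (σ k))
    (d1 : ∀ i j : Fin n, (i : ℕ) = j + 1 → v.repr (K.symm (v j)) i ≠ 0)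
    (c2 : ∀ i j : Fin n, (i : ℕ) + 1 < j → v.repr (K (v j)) i = 0)
    (d2 : ∀ i j : Fin n, (j : ℕ) = i + 1 → v.repr (K (v j)) i ≠ 0)
    (c1' : ∀ i j : Fin n, (j : ℕ) + 1 < i → v'.repr (K.symm (v' j)) i = 0) :
    ((σ ⟨0, by omega⟩ : ℕ) + 1 < n → (σ ⟨1, by omega⟩ : ℕ) = σ ⟨0, by omega⟩ + 1) ∧
      ((σ ⟨0, by omega⟩ : ℕ) + 1 = n → (σ ⟨1, by omega⟩ : ℕ) = 0) := by
  classical
  have e : K.symm (v' ⟨0, by omega⟩) = v'.repr (K.symm (v' ⟨0, by omega⟩)) ⟨0, by omega⟩ • v' ⟨0, by omega⟩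
      + v'.repr (K.symm (v' ⟨0, by omega⟩)) ⟨1, by omega⟩ • v' ⟨1, by omega⟩ := by
    conv_lhs => rw [← v'.sum_repr (K.symm (v' ⟨0, by omega⟩))]
    rw [← Finset.sum_subset (Finset.subset_univ {(⟨0, by omega⟩ : Fin n), ⟨1, by omega⟩}),
      Finset.sum_pair (by intro h; rw [Fin.ext_iff] at h; simp at h)]
    intro i _ hi
    rw [c1' i ⟨0, by omega⟩, zero_smul]
    simp only [Finset.mem_insert, Finset.mem_singleton, Fin.ext_iff, not_or] at hi
    simp; omega
  have key : ∀ m : Fin n, v.repr (K.symm (v (σ ⟨0, by omega⟩))) m ≠ 0 →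
      m = σ ⟨0, by omega⟩ ∨ m = σ ⟨1, by omega⟩ := by
    intro m hm
    by_contra hcon
    rw [not_or] at hcon
    have e2 := congrArg (fun z => v.repr z m) e
    simp only [hv, map_add, map_smul, Finsupp.add_apply, Finsupp.smul_apply, smul_eq_mul,
      Module.Basis.repr_self, Finsupp.single_apply] at e2
    rw [if_neg (Ne.symm hcon.1), if_neg (Ne.symm hcon.2)] at e2
    simp only [mul_zero, add_zero] at e2
    rcases mul_eq_zero.mp e2 with h | h
    · exact hc _ h
    · exact hm h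
  constructor
  · intro h
    rcases key ⟨(σ ⟨0, by omega⟩ : ℕ) + 1, h⟩ (d1 _ _ rfl) with h1 | h1
    · rw [Fin.ext_iff] at h1; simp at h1
    · rw [← h1]
  · intro h
    have h2 : σ ⟨0, by omega⟩ = ⟨n - 1, by omega⟩ := by rw [Fin.ext_iff]; simp; omega
    rcases key ⟨0, by omega⟩ (by rw [h2]; exact last0 hn K v c2 d2) with h1 | h1
    · rw [h2, Fin.ext_iff] at h1; simp at h1; omega
    · rw [← h1]

/-- last two elements of another order -/
theorem order2 (hn : 2 ≤ n) (K : V ≃ₗ[F] V) (v v' : Module.Basis (Fin n) F V) (σ : Fin n → Fin n)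
    (c : Fin n → F) (hc : ∀ k, c k ≠ 0) (hv : ∀ k, v' k = c k • v (σ k))
    (d2 : ∀ i j : Fin n, (j : ℕ) = i + 1 → v.repr (K (v j)) i ≠ 0)
    (c2' : ∀ i j : Fin n, (i : ℕ) + 1 < j → v'.repr (K (v' j)) i = 0)
    (h0 : 0 < (σ ⟨n - 1, by omega⟩ : ℕ)) :
    (σ ⟨n - 1, by omega⟩ : ℕ) = σ ⟨n - 2, by omega⟩ + 1 := by
  classical
  have e : K (v' ⟨n - 1, by omega⟩)
      = v'.repr (K (v' ⟨n - 1, by omega⟩)) ⟨n - 2, by omega⟩ • v' ⟨n - 2, by omega⟩
      + v'.repr (K (v' ⟨n - 1, by omega⟩)) ⟨n - 1, by omega⟩ • v' ⟨n - 1, by omega⟩ := by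
    conv_lhs => rw [← v'.sum_repr (K (v' ⟨n - 1, by omega⟩))]
    rw [← Finset.sum_subset (Finset.subset_univ {(⟨n - 2, by omega⟩ : Fin n), ⟨n - 1, by omega⟩}),
      Finset.sum_pair (by intro h; rw [Fin.ext_iff] at h; simp at h; omega)]
    intro i _ hi
    rw [c2' i ⟨n - 1, by omega⟩, zero_smul]
    simp only [Finset.mem_insert, Finset.mem_singleton, Fin.ext_iff, not_or] at hi
    have := i.2
    simp; omega
  have hm : v.repr (K (v (σ ⟨n - 1, by omega⟩))) ⟨(σ ⟨n - 1, by omega⟩ : ℕ) - 1, by omega⟩ ≠ 0 :=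
    d2 _ _ (by simp; omega)
  have e2 := congrArg (fun z => v.repr z ⟨(σ ⟨n - 1, by omega⟩ : ℕ) - 1, by omega⟩) e
  simp only [hv, map_add, map_smul, Finsupp.add_apply, Finsupp.smul_apply, smul_eq_mul,
    Module.Basis.repr_self, Finsupp.single_apply] at e2
  by_contra hcon
  rw [if_neg (fun h => by rw [Fin.ext_iff] at h; simp at h; omega),
    if_neg (fun h => by rw [Fin.ext_iff] at h; simp at h; omega)] at e2
  simp only [mul_zero, add_zero] at e2
  rcases mul_eq_zero.mp e2 with h | h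
  · exact hc _ h
  · exact hm h

end Pool.Agent.Helper14.IP
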