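import Pool.Agent.Helper14.IP.Unique

/-!
TH-P: the exceptional parameters `q ^ n = 1`, `s = -1` (quantum torus `B A = q A B`): `a`, `b` may be
multiplied by powers of `q`.  The conjugacy criterion.
-/

namespace Pool.Agent.Helper14.IP

open Pool.Agent.Helper54.IP

variable {F : Type*} [Field F]
variable {V : Type*} [AddCommGroup V] [Module F V] {n : ℕ}

theorem phi_torus {a b q : F} (hqn : q ^ n = 1) (hq1 : ∀ i, 1 ≤ i → i < n → q ^ i ≠ 1) {k : ℕ}
    (h1 : 1 ≤ k) (h2 : k < n) :
    phi n a b q (-1) k = a * b * q ^ (k - 1) * (q ^ k - 1) := by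
  have h3 : q ^ (n - k) ≠ 1 := hq1 (n - k) (by omega) (by omega)
  have h4 : 1 + -1 * q ^ (n - k) ≠ 0 := by
    intro h; apply h3; linear_combination -h
  unfold phi
  rw [div_eq_iff h4]
  ring

/-- the commutation relation of the quantum torus -/
theorem torus_comm {K Ks : V ≃ₗ[F] V} {a b q : F} (hqn : q ^ n = 1)
    (hq1 : ∀ i, 1 ≤ i → i < n → q ^ i ≠ 1) (h : IsMain n K Ks a b q (-1)) (z : V) :
    Ks (K.symm z) = q • K.symm (Ks z) := by
  obtain ⟨x, hA, hB⟩ := h
  set X : ℕ → V := fun i => if h : i < n then x ⟨i, h⟩ else 0 with hX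
  have Xi : ∀ i (h : i < n), X i = x ⟨i, h⟩ := fun i h => by rw [hX]; exact dif_pos h
  have Xn : X n = 0 := by rw [hX]; exact dif_neg (lt_irrefl n)
  have A1 : ∀ i, i < n → K.symm (X i) = (a * q ^ i) • X i + X (i + 1) := by
    intro i hi
    rw [Xi i hi, hA]
  have B1 : ∀ i, i + 1 ≤ n → Ks (X (i + 1)) = (b * q ^ (i + 1)) • X (i + 1)
      + (a * b * q ^ i * (q ^ (i + 1) - 1)) • X i := by
    intro i hi
    rcases Nat.lt_or_ge (i + 1) n with h | h
    · rw [Xi (i + 1) h, hB, dif_pos (by simp), Xi i (by omega),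
        phi_torus hqn hq1 (by simp) h]
      simp
    · have : i + 1 = n := by omega
      rw [this, Xn, map_zero, smul_zero, hqn, sub_self, mul_zero, zero_smul, add_zero]
  have B0 : ∀ h : 0 < n, Ks (X 0) = b • X 0 := by
    intro h
    rw [Xi 0 h, hB]; simp
  have key : (Ks : V →ₗ[F] V) ∘ₗ (K.symm : V →ₗ[F] V)
      = q • ((K.symm : V →ₗ[F] V) ∘ₗ (Ks : V →ₗ[F] V)) := by
    refine x.ext fun i => ?_
    obtain ⟨i, hi⟩ := i
    simp only [LinearMap.comp_apply, LinearMap.smul_apply, LinearEquiv.coe_coe]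
    rw [← Xi i hi]
    cases i with
    | zero =>
      rw [A1 0 hi, B0 hi, map_add, map_smul, map_smul, B0 hi, B1 0 (by omega), A1 0 hi]
      simp only [pow_zero, mul_one, zero_add, pow_one]
      module
    | succ i =>
      rw [A1 (i + 1) hi, B1 i (by omega), map_add, map_smul, map_add, map_smul, map_smul,
        B1 i (by omega), B1 (i + 1) (by omega), A1 (i + 1) hi, A1 i (by omega)]
      simp only [pow_succ]
      module
  exact LinearMap.congr_fun key z

theorem torus_pow {K Ks : V ≃ₗ[F] V} {q : F} (hc : ∀ z, Ks (K.symm z) = q • K.symm (Ks z)) (k : ℕ)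
    (z : V) : Ks (((K.symm : V →ₗ[F] V) ^ k) z) = q ^ k • ((K.symm : V →ₗ[F] V) ^ k) (Ks z) := by
  induction k with
  | zero => simp
  | succ k ih =>
    rw [pow_succ', Module.End.mul_apply, Module.End.mul_apply, LinearEquiv.coe_coe, hc, ih, map_smul,
      smul_smul, pow_succ']

/-- In the exceptional case `a` and `b` may be multiplied by powers of `q`. -/
theorem main_rotate (hn : 2 ≤ n) {K Ks : V ≃ₗ[F] V} {a b q a' b' : F} (g : Good n a b q (-1))
    (hqn : q ^ n = 1) (ha' : a' ^ n = a ^ n) (hb' : b' ^ n = b ^ n) (h : IsMain n K Ks a b q (-1)) :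
    IsMain n K Ks a' b' q (-1) := by
  classical
  obtain ⟨a0, b0, q0, -, gg⟩ := id g
  have hq1 : ∀ i, 1 ≤ i → i < n → q ^ i ≠ 1 := fun i h1 h2 => (gg i h1 h2).1
  have hprim : IsPrimitiveRoot q n :=
    IsPrimitiveRoot.mk_of_lt q (by omega) hqn fun l h1 h2 => hq1 l h1 h2
  have hc := torus_comm hqn hq1 h
  have irr : Irred K Ks := (main_isInvertingPair hn K Ks a b q (-1) a0 b0 q0 hq1 g.2.2.2.1
    (fun i h1 h2 => (gg i h1 h2).2) h).2
  obtain ⟨v, hv, -⟩ := main_basis hn K Ks a b q (-1) a0 q0 hq1 g.2.2.2.1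
    (fun i h1 h2 => (gg i h1 h2).2) h
  obtain ⟨x, hA, hB⟩ := id h
  haveI : FiniteDimensional F V := Module.Basis.finiteDimensional_of_finite x
  have hfin : Module.finrank F V = n := by rw [Module.finrank_eq_card_basis x, Fintype.card_fin]
  set A : Module.End F V := (K.symm : V →ₗ[F] V) with hAd
  -- the eigenvector of `Ks` for `b'`
  obtain ⟨u, hu0, hu⟩ : ∃ u : V, u ≠ 0 ∧ Ks u = b' • u := by
    have h1 : (b' / b) ^ n = 1 := by rw [div_pow, hb', div_self (pow_ne_zero _ b0)]
    haveI : NeZero n := ⟨by omega⟩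
    obtain ⟨j, hj, h2⟩ := hprim.eq_pow_of_pow_eq_one h1
    refine ⟨v ⟨j, hj⟩, v.ne_zero _, ?_⟩
    rw [hv]
    congr 1
    rw [h2, mul_div_cancel₀ _ b0]
  -- `A ^ n` is the scalar `a ^ n`
  have hAn : ∀ z, (A ^ n) z = a ^ n • z := by
    have hcomm : ∀ k : ℕ, ∀ z, (A ^ k) (K z) = K ((A ^ k) z) := by
      intro k
      induction k with
      | zero => intro z; simp
      | succ k ih =>
        intro z
        rw [pow_succ, Module.End.mul_apply, Module.End.mul_apply]
        have : A (K z) = K (A z) := by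
          rw [hAd]; simp
        rw [this, ih]
    set N : Submodule F V := LinearMap.ker (A ^ n - (a ^ n) • (1 : Module.End F V)) with hN
    have hmem : ∀ z, z ∈ N ↔ (A ^ n) z = a ^ n • z := by
      intro z
      rw [hN, LinearMap.mem_ker, LinearMap.sub_apply, LinearMap.smul_apply, Module.End.one_apply,
        sub_eq_zero]
    have hx : x ⟨n - 1, by omega⟩ ∈ N := by
      rw [hmem]
      have h1 : A (x ⟨n - 1, by omega⟩) = (a * q ^ (n - 1)) • x ⟨n - 1, by omega⟩ := by
        have := hA ⟨n - 1, by omega⟩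
        rw [dif_neg (by simp; omega), add_zero] at this
        exact this
      have h2 : ∀ k : ℕ, (A ^ k) (x ⟨n - 1, by omega⟩)
          = (a * q ^ (n - 1)) ^ k • x ⟨n - 1, by omega⟩ := by
        intro k
        induction k with
        | zero => simp
        | succ k ih =>
          rw [pow_succ', Module.End.mul_apply, ih, map_smul, h1, smul_smul, pow_succ]
      rw [h2, mul_pow, ← pow_mul, mul_comm (n - 1) n, pow_mul, hqn, one_pow, mul_one]
    have hN' := irr.2 N (fun z hz => by
      rw [hmem] at hz ⊢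
      rw [hcomm, hz, map_smul]) (fun z hz => by
      rw [hmem] at hz ⊢
      have h1 := torus_pow hc n z
      rw [hqn, one_smul] at h1
      rw [← h1]
      change Ks ((A ^ n) z) = _
      rw [hz, map_smul])
    rcases hN' with h1 | h1
    · rw [h1, Submodule.mem_bot] at hx
      exact absurd hx (x.ne_zero _)
    · intro z
      rw [← hmem, h1]; exact Submodule.mem_top
  -- the new basis
  let y : ℕ → V := fun i => Nat.rec u (fun i z => A z - (a' * q ^ i) • z) i
  have y0 : y 0 = u := rfl
  have yS : ∀ i, y (i + 1) = A (y i) - (a' * q ^ i) • y i := fun i => rfl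
  have yA : ∀ i, A (y i) = (a' * q ^ i) • y i + y (i + 1) := fun i => by
    rw [yS]; abel
  have yB0 : Ks (y 0) = b' • y 0 := hu
  have yBc : ∀ z, Ks (A z) = q • A (Ks z) := hc
  have yB : ∀ i, Ks (y (i + 1)) = (b' * q ^ (i + 1)) • y (i + 1)
      + (a' * b' * q ^ i * (q ^ (i + 1) - 1)) • y i := by
    intro i
    induction i with
    | zero =>
      rw [yS, map_sub, map_smul, yBc, yB0, map_smul, yA 0]
      simp only [pow_zero, mul_one, zero_add, pow_one]
      module
    | succ i ih =>
      have e1 : Ks (y (i + 1 + 1)) = q • A (Ks (y (i + 1))) - (a' * q ^ (i + 1)) • Ks (y (i + 1)) := by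
        rw [yS (i + 1), map_sub, map_smul, yBc]
      rw [e1, ih, map_add, map_smul, map_smul, yA (i + 1), yA i]
      simp only [pow_succ]
      module
  have yn : y n = 0 := by
    have e1 : ∀ i, y i = (Polynomial.aeval A (∏ l ∈ Finset.range i,
        (Polynomial.X - Polynomial.C (q ^ l * a')))) u := by
      intro i
      induction i with
      | zero => simp [y0]
      | succ i ih =>
        rw [Finset.prod_range_succ, mul_comm, map_mul, Module.End.mul_apply, ← ih, yS, map_sub,
          Polynomial.aeval_X, Polynomial.aeval_C, LinearMap.sub_apply,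
          Module.algebraMap_end_apply, mul_comm a']
    rw [e1, ← X_pow_sub_C_eq_prod hprim (show 0 < n by omega) (rfl : a' ^ n = a' ^ n), map_sub, map_pow,
      Polynomial.aeval_X, Polynomial.aeval_C, LinearMap.sub_apply, Module.algebraMap_end_apply, hAn,
      ha', sub_self]
  set U : Submodule F V := Submodule.span F (Set.range (fun i : Fin n => y i)) with hU
  have yU : ∀ i, i ≤ n → y i ∈ U := by
    intro i hi
    rcases Nat.lt_or_ge i n with h1 | h1
    · exact Submodule.subset_span ⟨⟨i, h1⟩, rfl⟩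
    · rw [show i = n by omega, yn]; exact U.zero_mem
  have UA : ∀ z ∈ U, A z ∈ U := by
    intro z hz
    induction hz using Submodule.span_induction with
    | mem z hz =>
      obtain ⟨i, rfl⟩ := hz
      simp only
      rw [yA]
      exact U.add_mem (U.smul_mem _ (yU i (by omega))) (yU (i + 1) (by omega))
    | zero => rw [map_zero]; exact U.zero_mem
    | add z w _ _ h1 h2 => rw [map_add]; exact U.add_mem h1 h2
    | smul c z _ h1 => rw [map_smul]; exact U.smul_mem _ h1
  have UB : ∀ z ∈ U, Ks z ∈ U := by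
    intro z hz
    induction hz using Submodule.span_induction with
    | mem z hz =>
      obtain ⟨⟨i, hi⟩, rfl⟩ := hz
      simp only
      cases i with
      | zero => rw [yB0]; exact U.smul_mem _ (yU 0 (by omega))
      | succ i =>
        rw [yB]
        exact U.add_mem (U.smul_mem _ (yU (i + 1) (by omega))) (U.smul_mem _ (yU i (by omega)))
    | zero => rw [map_zero]; exact U.zero_mem
    | add z w _ _ h1 h2 => rw [map_add]; exact U.add_mem h1 h2
    | smul c z _ h1 => rw [map_smul]; exact U.smul_mem _ h1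
  have UK : ∀ z ∈ U, K z ∈ U := by
    intro z hz
    have h1 : U.map A ≤ U := by
      rintro w ⟨z, hz, rfl⟩
      exact UA z hz
    have h2 : U.map A = U := by
      apply Submodule.eq_of_le_of_finrank_eq h1
      exact LinearEquiv.finrank_map_eq K.symm U
    rw [← h2] at hz
    obtain ⟨w, hw, rfl⟩ := hz
    have : K (A w) = w := by rw [hAd]; simp
    rw [this]; exact hw
  have hUtop : U = ⊤ := by
    rcases irr.2 U UK UB with h1 | h1
    · exfalso
      have h2 := yU 0 (by omega)
      rw [h1, Submodule.mem_bot] at h2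
      exact hu0 h2
    · exact h1
  set x' : Module.Basis (Fin n) F V :=
    basisOfTopLeSpanOfCardEqFinrank (fun i : Fin n => y i) (by rw [← hU, hUtop])
      (by rw [Fintype.card_fin, hfin]) with hx'
  have xy : ∀ i : Fin n, x' i = y i := fun i => by
    rw [hx', coe_basisOfTopLeSpanOfCardEqFinrank]
  refine ⟨x', fun i => ?_, fun i => ?_⟩
  · rw [xy]
    change A (y i) = _
    rw [yA]
    congr 1
    split_ifs with h1
    · rw [xy]
    · rw [show (i : ℕ) + 1 = n by omega, yn]
  · rw [xy]
    obtain ⟨i, hi⟩ := i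
    cases i with
    | zero => simp [yB0]
    | succ i =>
      simp only
      rw [yB, dif_pos (by simp), phi_torus hqn hq1 (by simp) hi, xy]
      simp

/-- transport of the normal form -/
theorem isMain_conj {V' : Type*} [AddCommGroup V'] [Module F V'] {K Ks : V ≃ₗ[F] V}
    {K' Ks' : V' ≃ₗ[F] V'} {a b q s : F} (h : IsMain n K Ks a b q s) (f : V ≃ₗ[F] V')
    (h1 : ∀ v, f (K v) = K' (f v)) (h2 : ∀ v, f (Ks v) = Ks' (f v)) : IsMain n K' Ks' a b q s := by
  obtain ⟨x, hA, hB⟩ := h
  have h3 : ∀ v, f (K.symm v) = K'.symm (f v) := by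
    intro v
    apply K'.injective
    rw [← h1, LinearEquiv.apply_symm_apply, LinearEquiv.apply_symm_apply]
  refine ⟨x.map f, fun i => ?_, fun i => ?_⟩
  · rw [Module.Basis.map_apply, ← h3, hA, map_add, map_smul]
    congr 1
    split_ifs
    · rw [Module.Basis.map_apply]
    · rw [map_zero]
  · rw [Module.Basis.map_apply, ← h2, hB, map_add, map_smul]
    congr 1
    split_ifs
    · rw [map_smul, Module.Basis.map_apply]
    · rw [map_zero]

/-- two pairs of the main family are conjugate iff the parameters agree up to the rotation -/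
theorem main_conj_iff (hn : 3 ≤ n) {V' : Type*} [AddCommGroup V'] [Module F V'] {K Ks : V ≃ₗ[F] V}
    {K' Ks' : V' ≃ₗ[F] V'} {a b q s a' b' q' s' : F} (g : Good n a b q s) (g' : Good n a' b' q' s')
    (h : IsMain n K Ks a b q s) (h' : IsMain n K' Ks' a' b' q' s') :
    (∃ f : V ≃ₗ[F] V', (∀ v, f (K v) = K' (f v)) ∧ ∀ v, f (Ks v) = Ks' (f v)) ↔
      q' = q ∧ s' = s ∧ ((a' = a ∧ b' = b) ∨ (q ^ n = 1 ∧ s = -1 ∧ a' ^ n = a ^ n ∧ b' ^ n = b ^ n)) := by
  constructor
  · rintro ⟨f, h1, h2⟩
    exact main_unique hn g g' (isMain_conj h f h1 h2) h'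
  · rintro ⟨rfl, rfl, ⟨rfl, rfl⟩ | ⟨h1, rfl, h2, h3⟩⟩
    · exact main_conj h h'
    · exact main_conj (main_rotate (by omega) g h1 h2 h3 h) h'

end Pool.Agent.Helper14.IP
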