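import Pool.Agent.Helper14.IP.Order
import Pool.Agent.Helper14.IP.Final

/-!
TH-P: uniqueness of the parameters `(a, b, q, s)` of an inverting pair of the main family (`n ≥ 3`).
-/

namespace Pool.Agent.Helper14.IP

open Pool.Agent.Helper54.IP

variable {F : Type*} [Field F]
variable {V : Type*} [AddCommGroup V] [Module F V] {n : ℕ}

theorem Good.phi_ne {a b q s : F} (g : Good n a b q s) {k : ℕ} (h1 : 1 ≤ k) (h2 : k < n) :
    phi n a b q s k ≠ 0 :=
  Pool.Agent.Helper54.IP.phi_ne g.1 g.2.1 g.2.2.1 (fun i h3 h4 => (g.2.2.2.2 i h3 h4).1)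
    (fun i h3 h4 => (g.2.2.2.2 i h3 h4).2) h1 h2

theorem Good.swap {a b q s : F} (g : Good n a b q s) :
    Good n (b * q ^ (n - 1)) (a * q ^ (n - 1)) q⁻¹ (s * q ^ n) := by
  obtain ⟨ha, hb, hq, hs, h⟩ := g
  refine ⟨mul_ne_zero hb (pow_ne_zero _ hq), mul_ne_zero ha (pow_ne_zero _ hq), inv_ne_zero hq,
    mul_ne_zero hs (pow_ne_zero _ hq), fun i h1 h2 => ⟨fun h3 => (h i h1 h2).1 ?_, ?_⟩⟩
  · rw [inv_pow] at h3; exact inv_eq_one.mp h3
  · have h4 : s * q ^ n * q⁻¹ ^ i = s * q ^ (n - i) := by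
      have e0 : q ^ n = q ^ (n - i) * q ^ i := by rw [← pow_add]; congr 1; omega
      have : q ^ i ≠ 0 := pow_ne_zero _ hq
      rw [e0, inv_pow]
      field_simp
    rw [h4]
    exact (h (n - i) (by omega) (by omega)).2

theorem isMain_swap (hn : 2 ≤ n) {K Ks : V ≃ₗ[F] V} {a b q s : F} (g : Good n a b q s)
    (h : IsMain n K Ks a b q s) :
    IsMain n Ks.symm K.symm (b * q ^ (n - 1)) (a * q ^ (n - 1)) q⁻¹ (s * q ^ n) :=
  main_swap hn K Ks a b q s g.1 g.2.1 g.2.2.1 (fun i h3 h4 => (g.2.2.2.2 i h3 h4).1)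
    (fun i h3 h4 => (g.2.2.2.2 i h3 h4).2) h

/-- the operator `q A B - B A` is diagonal in the basis `x`: compare two bases -/
theorem dd (hn : 3 ≤ n) {K Ks : V ≃ₗ[F] V} {a b q s a' b' s' : F} (g : Good n a b q s)
    (h : IsMain n K Ks a b q s) (h' : IsMain n K Ks a' b' q s') :
    (q - 1) * a' * b' - phi n a' b' q s' 1 = (q - 1) * a * b - phi n a b q s 1 ∧
      (b' ≠ b → (q - 1) * a * b * q ^ 2 + q * phi n a b q s 1 - phi n a b q s 2
        = (q - 1) * a * b - phi n a b q s 1) := by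
  obtain ⟨d, rfl⟩ : ∃ d, n = d + 1 := ⟨n - 1, by omega⟩
  have hφ : ∀ k, 1 ≤ k → k < d + 1 → phi (d + 1) a b q s k ≠ 0 := fun k h1 h2 => g.phi_ne h1 h2
  obtain ⟨x, hA, hB⟩ := h
  obtain ⟨x', hA', hB'⟩ := h'
  have cA := main_cA hA
  have cA0 := main_cA0 hA
  have cB := main_cB hB
  set z := x' ⟨0, by omega⟩ with hz
  have z1 : Ks z = b' • z := by
    rw [hz, hB' ⟨0, by omega⟩]; simp
  have z2 : K.symm z = a' • z + x' ⟨1, by omega⟩ := by
    rw [hz, hA' ⟨0, by omega⟩, dif_pos (by simp; omega)]; simp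
  have z3 : Ks (x' ⟨1, by omega⟩) = (b' * q) • x' ⟨1, by omega⟩ + phi (d + 1) a' b' q s' 1 • z := by
    rw [hB' ⟨1, by omega⟩, dif_pos (by simp), hz]; simp
  have zrec : ∀ (k : ℕ) (hk : k + 1 < d + 1), b * q ^ k * x.repr z ⟨k, by omega⟩
      + phi (d + 1) a b q s (k + 1) * x.repr z ⟨k + 1, hk⟩ = b' * x.repr z ⟨k, by omega⟩ := by
    intro k hk
    rw [← cB z k hk, z1, map_smul, Finsupp.smul_apply, smul_eq_mul]
  have z0 : x.repr z ⟨0, by omega⟩ ≠ 0 := by
    intro h0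
    have key : ∀ k : ℕ, ∀ hk : k < d + 1, x.repr z ⟨k, hk⟩ = 0 := by
      intro k
      induction k with
      | zero => intro _; exact h0
      | succ k ih =>
        intro hk
        have h1 := zrec k hk
        rw [ih (by omega), mul_zero, mul_zero, zero_add] at h1
        exact (mul_eq_zero.mp h1).resolve_left (hφ _ (by omega) hk)
    have h1 : x.repr z = 0 := by ext i; exact key i i.2
    have h2 : z = 0 := by simpa using h1
    exact x'.ne_zero _ h2
  -- `q A B z - B A z` in two ways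
  have D : q • K.symm (Ks z) - Ks (K.symm z)
      = ((q - 1) * a' * b' - phi (d + 1) a' b' q s' 1) • z := by
    rw [z1, map_smul, z2, map_add, map_smul, z1, z3]
    module
  have D0 := congrArg (fun y => x.repr y ⟨0, by omega⟩) D
  have D1 := congrArg (fun y => x.repr y ⟨0 + 1, by omega⟩) D
  simp only [map_sub, map_smul, Finsupp.sub_apply, Finsupp.smul_apply, smul_eq_mul] at D0 D1
  rw [cA0, cB z 0 (by omega), cB (K.symm z) 0 (by omega), cA0, cA z 0 (by omega)] at D0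
  rw [cA (Ks z) 0 (by omega), cB z 0 (by omega), cB z (0 + 1) (by omega),
    cB (K.symm z) (0 + 1) (by omega), cA z 0 (by omega), cA z (0 + 1) (by omega)] at D1
  have e0 := zrec 0 (by omega)
  simp only [zero_add] at D0 D1 e0
  have r1 : (q - 1) * a' * b' - phi (d + 1) a' b' q s' 1 = (q - 1) * a * b - phi (d + 1) a b q s 1 := by
    apply mul_right_cancel₀ z0
    linear_combination -D0
  refine ⟨r1, fun hb => ?_⟩
  have z1' : x.repr z ⟨1, by omega⟩ ≠ 0 := by
    intro h1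
    rw [h1] at e0
    have : (b' - b) * x.repr z ⟨0, by omega⟩ = 0 := by linear_combination -e0
    rcases mul_eq_zero.mp this with h2 | h2
    · exact hb (sub_eq_zero.mp h2)
    · exact z0 h2
  apply mul_right_cancel₀ z1'
  rw [← r1]
  linear_combination D1

/-- half of the uniqueness theorem -/
theorem half (hn : 3 ≤ n) {K Ks : V ≃ₗ[F] V} {a b q s a' b' q' s' : F} (g : Good n a b q s)
    (g' : Good n a' b' q' s') (h : IsMain n K Ks a b q s) (h' : IsMain n K Ks a' b' q' s') :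
    q' = q ∧ (b' = b ∨ (q ^ n = 1 ∧ s = -1 ∧ b' ^ n = b ^ n)) := by
  have ha := g.1
  have hb := g.2.1
  have hq := g.2.2.1
  have hs := g.2.2.2.1
  have hq1 : ∀ i, 1 ≤ i → i < n → q ^ i ≠ 1 := fun i h1 h2 => (g.2.2.2.2 i h1 h2).1
  have hs1 : ∀ i, 1 ≤ i → i < n → 1 + s * q ^ i ≠ 0 := fun i h1 h2 => (g.2.2.2.2 i h1 h2).2
  obtain ⟨v, hv, -, d1, c2, d2⟩ := main_basis (by omega) K Ks a b q s ha hq hq1 hs hs1 h
  obtain ⟨v', hv', c1', -, c2', -⟩ := main_basis (by omega) K Ks a' b' q' s' g'.1 g'.2.2.1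
    (fun i h1 h2 => (g'.2.2.2.2 i h1 h2).1) g'.2.2.2.1 (fun i h1 h2 => (g'.2.2.2.2 i h1 h2).2) h'
  have b_inj : Function.Injective (fun j : Fin n => b * q ^ (j : ℕ)) := by
    intro i j hij
    have h1 : q ^ (i : ℕ) = q ^ (j : ℕ) := mul_left_cancel₀ hb hij
    by_contra hne
    rcases lt_or_gt_of_ne hne with h | h
    · have h' : (i : ℕ) < (j : ℕ) := h
      have e : q ^ (j : ℕ) = q ^ (i : ℕ) * q ^ ((j : ℕ) - i) := by rw [← pow_add]; congr 1; omega
      rw [e] at h1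
      have h2 := mul_left_cancel₀ (pow_ne_zero (i : ℕ) hq) ((mul_one _).trans h1)
      exact hq1 _ (by omega) (by have := j.2; omega) h2.symm
    · have h' : (j : ℕ) < (i : ℕ) := h
      have e : q ^ (i : ℕ) = q ^ (j : ℕ) * q ^ ((i : ℕ) - j) := by rw [← pow_add]; congr 1; omega
      rw [e] at h1
      have h2 := mul_left_cancel₀ (pow_ne_zero (j : ℕ) hq) (h1.trans (mul_one _).symm)
      exact hq1 _ (by omega) (by have := i.2; omega) h2
  have hm : ∀ k : Fin n, ∃ i : Fin n, b' * q' ^ (k : ℕ) = b * q ^ (i : ℕ) ∧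
      ∃ c : F, c ≠ 0 ∧ v' k = c • v i := fun k =>
    eig_match Ks v _ b_inj hv (v' k) (v'.ne_zero k) _ (hv' k)
  choose σ hσ c hc hvc using hm
  have σ_inj : Function.Injective σ := by
    intro i j hij
    by_contra hne
    have e1 := hvc i
    have e2 := hvc j
    rw [← hij] at e2
    have e3 : c j • v' i = c i • v' j := by rw [e1, e2, smul_smul, smul_smul, mul_comm]
    have e4 := congrArg (fun z => v'.repr z i) e3
    simp only [map_smul, Module.Basis.repr_self, Finsupp.smul_apply, Finsupp.single_apply,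
      smul_eq_mul] at e4
    rw [if_neg (Ne.symm hne)] at e4
    simp only [if_true, mul_one, mul_zero] at e4
    exact hc j e4
  have step : ∀ k : ℕ, ∀ hk : k + 1 < n, (σ ⟨k + 1, hk⟩ : ℕ) = σ ⟨k, by omega⟩ + 1 → q' = q := by
    intro k hk he
    have e1 := hσ ⟨k + 1, hk⟩
    have e2 := hσ ⟨k, by omega⟩
    rw [he] at e1
    simp only [pow_succ] at e1 e2
    have h1 : b * q ^ (σ ⟨k, by omega⟩ : ℕ) ≠ 0 := mul_ne_zero hb (pow_ne_zero _ hq)
    apply mul_left_cancel₀ h1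
    rw [← e2]
    rw [← mul_assoc, e2, ← mul_assoc, ← e2] at e1
    exact e1
  obtain ⟨o1, o2⟩ := order1 (by omega) K v v' σ c hc hvc d1 c2 d2 c1'
  have hqq : q' = q := by
    by_cases hp : (σ ⟨0, by omega⟩ : ℕ) + 1 < n
    · exact step 0 (by omega) (o1 hp)
    · have h1 : (σ ⟨1, by omega⟩ : ℕ) = 0 := o2 (by have := (σ ⟨0, by omega⟩).2; omega)
      have h2 : 0 < (σ ⟨n - 1, by omega⟩ : ℕ) := by
        by_contra hcon
        have h3 : σ ⟨n - 1, by omega⟩ = σ ⟨1, by omega⟩ := by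
          rw [Fin.ext_iff]; omega
        have h4 := σ_inj h3
        rw [Fin.ext_iff] at h4
        simp at h4; omega
      have h3 := order2 (by omega) K v v' σ c hc hvc d2 c2' h2
      have e : (⟨n - 1, by omega⟩ : Fin n) = ⟨n - 2 + 1, by omega⟩ := by
        rw [Fin.ext_iff]; simp; omega
      rw [e] at h3
      exact step (n - 2) (by omega) h3
  refine ⟨hqq, ?_⟩
  subst hqq
  by_cases hbb : b' = b
  · exact Or.inl hbb
  right
  have s0 := hσ ⟨0, by omega⟩
  simp only [pow_zero, mul_one] at s0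
  have hp : 0 < (σ ⟨0, by omega⟩ : ℕ) := by
    by_contra hcon
    have : (σ ⟨0, by omega⟩ : ℕ) = 0 := by omega
    rw [this, pow_zero, mul_one] at s0
    exact hbb s0
  have hqn : q' ^ n = 1 := by
    have hlt := (σ ⟨0, by omega⟩).2
    have e1 := hσ ⟨n - (σ ⟨0, by omega⟩ : ℕ), by omega⟩
    simp only at e1
    rw [s0, mul_assoc, ← pow_add, show (σ ⟨0, by omega⟩ : ℕ) + (n - (σ ⟨0, by omega⟩ : ℕ)) = n by omega]
      at e1
    have e2 := mul_left_cancel₀ hb e1
    set i := (σ ⟨n - (σ ⟨0, by omega⟩ : ℕ), by omega⟩ : ℕ) with hi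
    have hin : i < n := (σ ⟨n - (σ ⟨0, by omega⟩ : ℕ), by omega⟩).2
    have e3 : q' ^ n = q' ^ i * q' ^ (n - i) := by rw [← pow_add]; congr 1; omega
    have e4 : q' ^ (n - i) = 1 := by
      apply mul_left_cancel₀ (pow_ne_zero i hq)
      rw [← e3, e2, mul_one]
    rcases Nat.eq_zero_or_pos i with h0 | h0
    · rw [h0, Nat.sub_zero] at e4; exact e4
    · exact absurd e4 (hq1 _ (by omega) (by omega))
  have hsm : s = -1 := by
    have E := (dd hn g h h').2 hbb
    have u1 := hs1 (n - 1) (by omega) (by omega)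
    have u2 := hs1 (n - 2) (by omega) (by omega)
    have hr : q' ^ (n - 1) = q'⁻¹ := by
      apply eq_inv_of_mul_eq_one_left
      rw [← pow_succ, show n - 1 + 1 = n by omega, hqn]
    have ht : q' ^ (n - 2) = (q' ^ 2)⁻¹ := by
      apply eq_inv_of_mul_eq_one_left
      rw [← pow_add, show n - 2 + 2 = n by omega, hqn]
    unfold phi at E
    rw [hr] at u1 E
    rw [ht] at u2 E
    have w1 : q' + s ≠ 0 := by
      intro h0; apply u1
      have : 1 + s * q'⁻¹ = (q' + s) * q'⁻¹ := by rw [add_mul, mul_inv_cancel₀ hq]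
      rw [this, h0, zero_mul]
    have w2 : q' ^ 2 + s ≠ 0 := by
      intro h0; apply u2
      have : 1 + s * (q' ^ 2)⁻¹ = (q' ^ 2 + s) * (q' ^ 2)⁻¹ := by
        rw [add_mul, mul_inv_cancel₀ (pow_ne_zero _ hq)]
      rw [this, h0, zero_mul]
    have f1 : (q'⁻¹ - 1) / (1 + s * q'⁻¹) = (1 - q') / (q' + s) := by
      rw [div_eq_div_iff u1 w1]; field_simp
    have f2 : ((q' ^ 2)⁻¹ - 1) / (1 + s * (q' ^ 2)⁻¹) = (1 - q' ^ 2) / (q' ^ 2 + s) := by
      rw [div_eq_div_iff u2 w2]; field_simp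
    simp only [mul_div_assoc] at E
    rw [f1, f2] at E
    have k2 : q' ^ 2 ≠ 1 := hq1 2 (by omega) (by omega)
    have k1 : q' ≠ 1 := by have := hq1 1 (by omega) (by omega); rwa [pow_one] at this
    have fin : a * b * (q' - 1) * (q' ^ 2 - 1) * s * (s + 1) = 0 := by
      simp only [Nat.sub_self, pow_zero, pow_one, show 2 - 1 = 1 from rfl] at E
      field_simp at E
      linear_combination (a * b) * E
    have : s + 1 = 0 := by
      rcases mul_eq_zero.mp fin with h1 | h1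
      · exfalso
        exact mul_ne_zero (mul_ne_zero (mul_ne_zero (mul_ne_zero ha hb) (sub_ne_zero.mpr k1))
          (sub_ne_zero.mpr k2)) hs h1
      · exact h1
    linear_combination this
  refine ⟨hqn, hsm, ?_⟩
  rw [s0, mul_pow, ← pow_mul, mul_comm, mul_comm _ n, pow_mul, hqn, one_pow, one_mul]

/-- UNIQUENESS of the parameters, `n ≥ 3`: they are unique unless `q ^ n = 1`, `s = -1`. -/
theorem main_unique (hn : 3 ≤ n) {K Ks : V ≃ₗ[F] V} {a b q s a' b' q' s' : F} (g : Good n a b q s)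
    (g' : Good n a' b' q' s') (h : IsMain n K Ks a b q s) (h' : IsMain n K Ks a' b' q' s') :
    q' = q ∧ s' = s ∧ ((a' = a ∧ b' = b) ∨ (q ^ n = 1 ∧ s = -1 ∧ a' ^ n = a ^ n ∧ b' ^ n = b ^ n)) := by
  obtain ⟨hq, hB⟩ := half hn g g' h h'
  obtain ⟨-, hB'⟩ := half hn g' g h' h
  obtain ⟨-, hA⟩ := half hn g.swap g'.swap (isMain_swap (by omega) g h) (isMain_swap (by omega) g' h')
  obtain ⟨-, hA'⟩ := half hn g'.swap g.swap (isMain_swap (by omega) g' h') (isMain_swap (by omega) g h)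
  subst hq
  have q0 := g.2.2.1
  have qn0 : q' ^ (n - 1) ≠ 0 := pow_ne_zero _ q0
  have inv1 : q'⁻¹ ^ n = 1 → q' ^ n = 1 := fun h => by rw [inv_pow] at h; exact inv_eq_one.mp h
  have A1 : a' = a ∨ (q' ^ n = 1 ∧ s = -1 ∧ a' ^ n = a ^ n) := by
    rcases hA with h1 | ⟨h1, h2, h3⟩
    · exact Or.inl (mul_right_cancel₀ qn0 h1)
    · have h4 := inv1 h1
      rw [h4, mul_one] at h2
      rw [mul_pow, mul_pow] at h3
      exact Or.inr ⟨h4, h2, mul_right_cancel₀ (pow_ne_zero _ qn0) h3⟩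
  have A1' : a = a' ∨ (q' ^ n = 1 ∧ s' = -1 ∧ a ^ n = a' ^ n) := by
    rcases hA' with h1 | ⟨h1, h2, h3⟩
    · exact Or.inl (mul_right_cancel₀ qn0 h1)
    · have h4 := inv1 h1
      rw [h4, mul_one] at h2
      rw [mul_pow, mul_pow] at h3
      exact Or.inr ⟨h4, h2, mul_right_cancel₀ (pow_ne_zero _ qn0) h3⟩
  refine ⟨rfl, ?_⟩
  by_cases hab : a' = a ∧ b' = b
  · obtain ⟨rfl, rfl⟩ := hab
    refine ⟨?_, Or.inl ⟨rfl, rfl⟩⟩
    have E := (dd hn g h h').1
    have E2 : phi n a' b' q' s' 1 = phi n a' b' q' s 1 := by linear_combination -E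
    unfold phi at E2
    have u1 := (g.2.2.2.2 (n - 1) (by omega) (by omega)).2
    have u1' := (g'.2.2.2.2 (n - 1) (by omega) (by omega)).2
    have k1 := (g.2.2.2.2 1 (by omega) (by omega)).1
    have k2 := (g.2.2.2.2 (n - 1) (by omega) (by omega)).1
    rw [div_eq_div_iff u1' u1] at E2
    have nn : a' * b' * q' ^ (1 - 1) * (1 - q' ^ 1) * (q' ^ (n - 1) - 1) ≠ 0 :=
      mul_ne_zero (mul_ne_zero (mul_ne_zero (mul_ne_zero g.1 g.2.1) (pow_ne_zero _ q0))
        (sub_ne_zero.mpr (Ne.symm k1))) (sub_ne_zero.mpr k2)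
    have E3 := mul_left_cancel₀ nn E2
    have E4 : s * q' ^ (n - 1) = s' * q' ^ (n - 1) := add_left_cancel E3
    exact (mul_right_cancel₀ qn0 E4).symm
  · have key : q' ^ n = 1 ∧ s = -1 ∧ s' = -1 := by
      rcases hB with h1 | ⟨h1, h2, -⟩
      · rcases A1 with h3 | ⟨h3, h4, -⟩
        · exact absurd ⟨h3, h1⟩ hab
        · refine ⟨h3, h4, ?_⟩
          rcases A1' with h5 | ⟨-, h6, -⟩
          · exact absurd ⟨h5.symm, h1⟩ hab
          · exact h6
      · refine ⟨h1, h2, ?_⟩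
        rcases hB' with h5 | ⟨-, h6, -⟩
        · rcases A1' with h7 | ⟨-, h8, -⟩
          · exact absurd ⟨h7.symm, h5.symm⟩ hab
          · exact h8
        · exact h6
    obtain ⟨k1, k2, k3⟩ := key
    refine ⟨by rw [k2, k3], Or.inr ⟨k1, k2, ?_, ?_⟩⟩
    · rcases A1 with h1 | ⟨-, -, h1⟩
      · rw [h1]
      · exact h1
    · rcases hB with h1 | ⟨-, -, h1⟩
      · rw [h1]
      · exact h1

end Pool.Agent.Helper14.IP
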